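import Pool.Agent.TH450.FH.Glob

/-!
# Cross-ratios of the points of a large stable set have small height
-/

namespace Pool.Agent.Q256.LH

open Pool.Agent.W277.UB Pool.Agent.W277.UG Pool.Agent.W277.UH Finset Polynomial

universe u v w

/-- `x` has height at most `B`. -/
def HB {k : Type v} {K : Type u} [Field k] [Field K] [Algebra k K] (Q : PlaceData.{w} k K) (x : K)
    (B : ℤ) : Prop :=
  ∀ S : Finset Q.Pl, ∑ v ∈ S, Q.wt v * Q.pole v x ≤ B

section HBl

variable {k : Type v} {K : Type u} [Field k] [Field K] [Algebra k K] {Q : PlaceData.{w} k K}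

lemma HB.mono {x : K} {B C : ℤ} (h : HB Q x B) (hBC : B ≤ C) : HB Q x C :=
  fun S => (h S).trans hBC

lemma HB.nonneg {x : K} {B : ℤ} (h : HB Q x B) : 0 ≤ B := by
  simpa using h ∅

lemma HB.zero : HB Q (0 : K) 0 := by
  intro S
  simp [PlaceData.pole_zero]

lemma HB.one : HB Q (1 : K) 0 := by
  intro S
  have h : ∀ v, Q.pole v (1 : K) = 0 := fun v => by
    rw [PlaceData.pole_of_ne one_ne_zero, PlaceData.ord_one]
    rfl
  simp [h]

lemma pole_mul_le (v : Q.Pl) (x y : K) : Q.pole v (x * y) ≤ Q.pole v x + Q.pole v y := by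
  apply PlaceData.pole_le_of_G
  · exact add_nonneg (PlaceData.pole_nonneg v x) (PlaceData.pole_nonneg v y)
  · rw [neg_add]
    exact PlaceData.G_mul (PlaceData.G_pole v x) (PlaceData.G_pole v y)

lemma pole_add_le (v : Q.Pl) (x y : K) : Q.pole v (x + y) ≤ Q.pole v x + Q.pole v y := by
  have h1 := PlaceData.pole_nonneg v x
  have h2 := PlaceData.pole_nonneg v y
  apply PlaceData.pole_le_of_G (by linarith)
  exact PlaceData.G_add (PlaceData.G_mono (PlaceData.G_pole v x) (by linarith))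
    (PlaceData.G_mono (PlaceData.G_pole v y) (by linarith))

lemma HB.mul {x y : K} {B C : ℤ} (hx : HB Q x B) (hy : HB Q y C) : HB Q (x * y) (B + C) := by
  intro S
  refine le_trans ?_ (add_le_add (hx S) (hy S))
  rw [← Finset.sum_add_distrib]
  refine Finset.sum_le_sum fun v _ => ?_
  rw [← mul_add]
  exact mul_le_mul_of_nonneg_left (pole_mul_le v x y) (Q.wt_nonneg v)

lemma HB.add {x y : K} {B C : ℤ} (hx : HB Q x B) (hy : HB Q y C) : HB Q (x + y) (B + C) := by
  intro S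
  refine le_trans ?_ (add_le_add (hx S) (hy S))
  rw [← Finset.sum_add_distrib]
  refine Finset.sum_le_sum fun v _ => ?_
  rw [← mul_add]
  exact mul_le_mul_of_nonneg_left (pole_add_le v x y) (Q.wt_nonneg v)

lemma HB.neg {x : K} {B : ℤ} (hx : HB Q x B) : HB Q (-x) B := by
  intro S
  refine le_trans (le_of_eq ?_) (hx S)
  refine Finset.sum_congr rfl fun v _ => ?_
  by_cases h : x = 0
  · rw [h, neg_zero]
  · rw [PlaceData.pole_of_ne (neg_ne_zero.2 h), PlaceData.pole_of_ne h, PlaceData.ord_neg h]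

lemma HB.pow {x : K} {B : ℤ} (hx : HB Q x B) (n : ℕ) : HB Q (x ^ n) (n * B) := by
  induction n with
  | zero => simpa using HB.one
  | succ n ih =>
    rw [pow_succ]
    refine (ih.mul hx).mono (le_of_eq ?_)
    push_cast
    ring

lemma HB.sum {ι : Type*} (s : Finset ι) (f : ι → K) {B : ℤ} (h : ∀ i ∈ s, HB Q (f i) B) :
    HB Q (∑ i ∈ s, f i) (s.card * B) := by
  classical
  induction s using Finset.induction_on with
  | empty => simpa using HB.zero
  | insert a s ha ih =>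
    rw [Finset.sum_insert ha, Finset.card_insert_of_notMem ha]
    refine ((h a (mem_insert_self a s)).add
      (ih fun i hi => h i (mem_insert_of_mem hi))).mono (le_of_eq ?_)
    push_cast
    ring

lemma HB.prod {ι : Type*} (s : Finset ι) (f : ι → K) {B : ℤ} (h : ∀ i ∈ s, HB Q (f i) B) :
    HB Q (∏ i ∈ s, f i) (s.card * B) := by
  classical
  induction s using Finset.induction_on with
  | empty => simpa using HB.one
  | insert a s ha ih =>
    rw [Finset.prod_insert ha, Finset.card_insert_of_notMem ha]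
    refine ((h a (mem_insert_self a s)).mul
      (ih fun i hi => h i (mem_insert_of_mem hi))).mono (le_of_eq ?_)
    push_cast
    ring

lemma HB.inv {x : K} {B : ℤ} (hx : HB Q x B) : HB Q x⁻¹ B := by
  classical
  by_cases h0 : x = 0
  · rw [h0, inv_zero]
    exact HB.zero.mono hx.nonneg
  intro S
  set S' := S ∪ (Q.fin x h0).toFinset with hS'
  have h1 : ∑ v ∈ S, Q.wt v * Q.pole v x⁻¹ ≤ ∑ v ∈ S', Q.wt v * Q.pole v x⁻¹ :=
    Finset.sum_le_sum_of_subset_of_nonneg Finset.subset_union_left fun v _ _ =>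
      mul_nonneg (Q.wt_nonneg v) (PlaceData.pole_nonneg v _)
  have h2 : ∀ v, v ∉ S' → Q.ord v x = 0 := by
    intro v hv
    by_contra h
    exact hv (by simp [hS', h])
  have h3 := prod_zero Q S' x h0 h2
  have h4 : ∑ v ∈ S', Q.wt v * Q.pole v x⁻¹ = ∑ v ∈ S', Q.wt v * Q.pole v x +
      ∑ v ∈ S', Q.wt v * Q.ord v x := by
    rw [← Finset.sum_add_distrib]
    refine Finset.sum_congr rfl fun v _ => ?_
    rw [PlaceData.pole_of_ne h0, PlaceData.pole_of_ne (inv_ne_zero h0), PlaceData.ord_inv h0,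
      ← mul_add]
    congr 1
    rcases le_total (Q.ord v x) 0 with h | h
    · rw [max_eq_left (by linarith), max_eq_right (by linarith)]
      ring
    · rw [max_eq_right (by linarith), max_eq_left (by linarith)]
      ring
  rw [h3, add_zero] at h4
  rw [h4] at h1
  exact h1.trans (hx S')

lemma HB.div {x y : K} {B C : ℤ} (hx : HB Q x B) (hy : HB Q y C) : HB Q (x / y) (B + C) := by
  rw [div_eq_mul_inv]
  exact hx.mul hy.inv

lemma HB.det {ι : Type*} [Fintype ι] [DecidableEq ι] (M : Matrix ι ι K) {B : ℤ}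
    (h : ∀ i j, HB Q (M i j) B) :
    HB Q M.det ((Fintype.card (Equiv.Perm ι) : ℤ) * (Fintype.card ι * B)) := by
  rw [Matrix.det_apply]
  have h1 := HB.sum (Q := Q) (Finset.univ : Finset (Equiv.Perm ι))
    (fun σ => Equiv.Perm.sign σ • ∏ i, M (σ i) i) (B := Fintype.card ι * B) (by
      intro σ _
      have h2 := HB.prod (Q := Q) (Finset.univ : Finset ι) (fun i => M (σ i) i) (B := B)
        (fun i _ => h _ _)
      rw [Finset.card_univ] at h2
      rcases Int.units_eq_one_or (Equiv.Perm.sign σ) with h3 | h3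
      · rw [h3, one_smul]
        exact h2
      · rw [h3]
        simpa using h2.neg)
  rw [Finset.card_univ] at h1
  exact h1

end HBl

/-- **Cross-ratios have small height.** -/
theorem cross_bound (d : ℕ) (hd : 2 ≤ d) : ∃ N₁ : ℕ,
    ∀ (k : Type v) (K : Type u) [Field k] [CharZero k] [Field K] [Algebra k K] [DecidableEq K]
    (Q : PlaceData.{w} k K) (p q : Polynomial K), p.natDegree ≤ d → q.natDegree = d → IsCoprime p q →
    ∀ P : Finset K, (∀ z ∈ P, q.eval z ≠ 0 ∧ p.eval z / q.eval z ∈ P) →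
    ¬ ConjConst k p q d → N₁ ≤ P.card →
    ∀ x ∈ P, ∀ y ∈ P, ∀ z ∈ P, ∀ t ∈ P, x ≠ y → z ≠ t → x ≠ t → z ≠ y →
      HB Q ((x - y) * (z - t) / ((x - t) * (z - y))) (384 * d * (d + 1) * Q.lossT) := by
  classical
  obtain ⟨N₀, M, hglob⟩ := global_boundU.{u, v, w} d hd
  refine ⟨N₀ + 4 * ((M + 3) * (d + 1)) + (3 * d + 4) + q₀ d, ?_⟩
  intro k K _ _ _ _ _ Q p q hp hq hco P hP hiso hN
  have hdR : (2 : ℝ) ≤ d := by exact_mod_cast hd
  have hqP : q₀ d < P.card := by omega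
  have hres := res_ne d p q hp hq (by omega) hco
  set r := resultant q p d d with hr
  set fz : K → K := fun z => p.eval z / q.eval z with hfz
  have hf : ∀ z ∈ P, fz z ∈ P := fun z hz => (hP z hz).2
  set E : Finset K := insert r (P.image q.eval ∪ P.offDiag.image fun w => w.1 - w.2) with hE
  set S : Finset Q.Pl := Q.lossS ∪ E.biUnion (fun x => if h : x ≠ 0 then (Q.fin x h).toFinset
    else ∅) with hS
  have hSE : ∀ v, v ∉ S → ∀ x ∈ E, x ≠ 0 → Q.ord v x = 0 := by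
    intro v hv x hx hx0
    by_contra h
    apply hv
    rw [hS, Finset.mem_union]
    right
    rw [Finset.mem_biUnion]
    refine ⟨x, hx, ?_⟩
    rw [dif_pos hx0, Set.Finite.mem_toFinset]
    exact h
  have hrE : r ∈ E := Finset.mem_insert_self _ _
  have hqE : ∀ z ∈ P, q.eval z ∈ E := fun z hz => Finset.mem_insert_of_mem
    (Finset.mem_union_left _ (Finset.mem_image_of_mem _ hz))
  have hxE : ∀ x ∈ P, ∀ y ∈ P, x ≠ y → x - y ∈ E := fun x hx y hy hxy =>
    Finset.mem_insert_of_mem (Finset.mem_union_right _ (Finset.mem_image.mpr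
      ⟨(x, y), Finset.mem_offDiag.mpr ⟨hx, hy, hxy⟩, rfl⟩))
  choose a ha using fun v => exists_a d hd P fz hf (fun z => (Q.ord v (q.eval z) : ℝ))
  set ρ : Q.Pl → ℝ := fun v => (Q.ord v r : ℝ) / (d * ((d : ℝ) - 1)) with hρ
  have hL : ∀ v, Nonempty (LD Q v d P (a v) (ρ v)) := fun v =>
    local_all' Q v d hd p q hp hq hco P hP (a v) (ha v) (ρ v) hres rfl
  let L : ∀ v, LD Q v d P (a v) (ρ v) := fun v => Classical.choice (hL v)
  have hS1 : ∀ v, v ∉ S → ∀ x ∈ P, ∀ y ∈ P, x ≠ y → Q.ord v (x - y) = 0 :=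
    fun v hv x hx y hy hxy => hSE v hv _ (hxE x hx y hy hxy) (sub_ne_zero.mpr hxy)
  have hS2 : ∀ v, v ∉ S → (∀ x ∈ P, a v x = 0) ∧ ρ v = 0 := by
    intro v hv
    constructor
    · apply stable_zero d hd P fz hf
      intro z hz
      rw [ha v z hz, hSE v hv _ (hqE z hz) (hP z hz).1]
      simp
    · simp only [hρ]
      rw [hSE v hv r hrE hres]
      simp
  have hS3 : Q.lossS ⊆ S := Finset.subset_union_left
  have hwa : ∀ x ∈ P, ∑ v ∈ S, (Q.wt v : ℝ) * a v x = 0 := by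
    apply stable_zero d hd P fz hf (fun x => ∑ v ∈ S, (Q.wt v : ℝ) * a v x)
    intro z hz
    have h1 := prod_zero Q S (q.eval z) (hP z hz).1
      (fun v hv => hSE v hv _ (hqE z hz) (hP z hz).1)
    have h2 : ∑ v ∈ S, (Q.wt v : ℝ) * (Q.ord v (q.eval z) : ℝ) = 0 := by exact_mod_cast h1
    have h3 : (d : ℝ) * ∑ v ∈ S, (Q.wt v : ℝ) * a v z =
        ∑ v ∈ S, (Q.wt v : ℝ) * (Q.ord v (q.eval z) : ℝ) +
          ∑ v ∈ S, (Q.wt v : ℝ) * a v (fz z) := by
      rw [Finset.mul_sum, ← Finset.sum_add_distrib]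
      apply Finset.sum_congr rfl
      intro v _
      have := ha v z hz
      linear_combination (Q.wt v : ℝ) * this
    rw [h3, h2, zero_add]
  have hwρ : ∑ v ∈ S, (Q.wt v : ℝ) * ρ v = 0 := by
    have h1 := prod_zero Q S r hres (fun v hv => hSE v hv _ hrE hres)
    have h2 : ∑ v ∈ S, (Q.wt v : ℝ) * (Q.ord v r : ℝ) = 0 := by exact_mod_cast h1
    have h3 : ∑ v ∈ S, (Q.wt v : ℝ) * ρ v =
        (∑ v ∈ S, (Q.wt v : ℝ) * (Q.ord v r : ℝ)) / (d * ((d : ℝ) - 1)) := by
      rw [Finset.sum_div]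
      apply Finset.sum_congr rfl
      intro v _
      simp only [hρ]
      ring
    rw [h3, h2, zero_div]
  have hwt : ∀ v, (0 : ℝ) ≤ Q.wt v := fun v => by exact_mod_cast Q.wt_nonneg v
  have hpair : ∀ x ∈ P, ∀ y ∈ P, x ≠ y → ∑ v ∈ S, (Q.wt v : ℝ) * GG Q v (a v) (ρ v) x y = 0 := by
    intro x hx y hy hxy
    have h1 := prod_zero Q S (x - y) (sub_ne_zero.mpr hxy) fun v hv => hS1 v hv x hx y hy hxy
    have h2 : ∑ v ∈ S, (Q.wt v : ℝ) * (Q.ord v (x - y) : ℝ) = 0 := by exact_mod_cast h1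
    have h3 : ∀ v, (Q.wt v : ℝ) * GG Q v (a v) (ρ v) x y = (Q.wt v : ℝ) * (Q.ord v (x - y) : ℝ) -
        (Q.wt v : ℝ) * a v x - (Q.wt v : ℝ) * a v y + (Q.wt v : ℝ) * ρ v := by
      intro v
      unfold GG
      ring
    simp_rw [h3]
    rw [Finset.sum_add_distrib, Finset.sum_sub_distrib, Finset.sum_sub_distrib, h2, hwa x hx,
      hwa y hy, hwρ]
    ring
  have hGG0 : ∀ v, v ∉ S → ∀ x ∈ P, ∀ y ∈ P, x ≠ y → GG Q v (a v) (ρ v) x y = 0 := by
    intro v hv x hx y hy hxy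
    unfold GG
    rw [hS1 v hv x hx y hy hxy, (hS2 v hv).1 x hx, (hS2 v hv).1 y hy, (hS2 v hv).2]
    simp
  -- the global inequality
  have hna : ∀ T ⊆ P, ∀ α β γ : K, (∀ x ∈ T, Q.D x = α * x ^ 2 + β * x + γ) →
      P.card < (d + 1) * (P \ T).card + (3 * d + 4) := by
    intro T hT α β γ hq2
    by_contra hcon
    push Not at hcon
    exact hiso (conj_of_cross p q d hp hq hd hco P hP T hT
      (fun x0 h0 x1 h1 x2 h2 x hx _ _ _ _ _ => cross_of_quad Q T α β γ hq2 x0 x1 x2 x h0 h1 h2 hx)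
      hcon)
  have hH := hglob k K Q S P a ρ L (by omega) hS1 hS2 hS3 hwa hwρ (by
    intro m hm hmM b _ F hF
    apply functional_countR Q p q d hd hp hq hco P hP m hna _ b F hF
    have h1 : (m + 3) * (d + 1) ≤ (M + 3) * (d + 1) := Nat.mul_le_mul_right _ (by omega)
    omega)
  -- the lower bound for the pairing
  have hlow : ∀ v, ∀ x ∈ P, ∀ y ∈ P, x ≠ y → -(2 * ((L v).R : ℝ)) ≤ GG Q v (a v) (ρ v) x y := by
    intro v x hx y hy hxy
    rw [(L v).GG_eq hx hy hxy]
    have h1 := ((L v).hA x hx).2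
    have h2 := ((L v).hA y hy).2
    have hR0 : (0 : ℝ) ≤ (L v).R := Nat.cast_nonneg _
    have h3 : ((L v).R : ℝ) / ((d : ℝ) - 1) ≤ (L v).R := by
      rw [div_le_iff₀ (by linarith)]
      nlinarith
    have h4 : (0 : ℝ) ≤ (L v).o x y := Nat.cast_nonneg _
    have h5 : (0 : ℝ) ≤ ((L v).R : ℝ) / (d * ((d : ℝ) - 1)) := by
      apply div_nonneg hR0
      apply mul_nonneg <;> linarith
    linarith
  set EE : ℝ := ∑ v ∈ S, (Q.wt v : ℝ) * (L v).R with hEE
  have hneg : ∀ x ∈ P, ∀ y ∈ P, x ≠ y → ∀ S' : Finset Q.Pl,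
      ∑ v ∈ S', (Q.wt v : ℝ) * max 0 (-(GG Q v (a v) (ρ v) x y)) ≤ 2 * EE := by
    intro x hx y hy hxy S'
    have h1 : ∑ v ∈ S', (Q.wt v : ℝ) * max 0 (-(GG Q v (a v) (ρ v) x y)) ≤
        ∑ v ∈ S' ∪ S, (Q.wt v : ℝ) * max 0 (-(GG Q v (a v) (ρ v) x y)) :=
      Finset.sum_le_sum_of_subset_of_nonneg Finset.subset_union_left fun v _ _ =>
        mul_nonneg (hwt v) (le_max_left _ _)
    have h2 : ∑ v ∈ S, (Q.wt v : ℝ) * max 0 (-(GG Q v (a v) (ρ v) x y)) =
        ∑ v ∈ S' ∪ S, (Q.wt v : ℝ) * max 0 (-(GG Q v (a v) (ρ v) x y)) := by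
      apply Finset.sum_subset Finset.subset_union_right
      intro v _ hv
      rw [hGG0 v hv x hx y hy hxy]
      simp
    rw [← h2] at h1
    refine h1.trans ?_
    rw [hEE, Finset.mul_sum]
    refine Finset.sum_le_sum fun v _ => ?_
    have h3 := hlow v x hx y hy hxy
    have hR0 : (0 : ℝ) ≤ (L v).R := Nat.cast_nonneg _
    have h4 : max 0 (-(GG Q v (a v) (ρ v) x y)) ≤ 2 * ((L v).R : ℝ) := by
      apply max_le (by linarith) (by linarith)
    have := mul_le_mul_of_nonneg_left h4 (hwt v)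
    linarith
  have hpos : ∀ x ∈ P, ∀ y ∈ P, x ≠ y → ∀ S' : Finset Q.Pl,
      ∑ v ∈ S', (Q.wt v : ℝ) * max 0 (GG Q v (a v) (ρ v) x y) ≤ 2 * EE := by
    intro x hx y hy hxy S'
    have h1 : ∑ v ∈ S', (Q.wt v : ℝ) * max 0 (GG Q v (a v) (ρ v) x y) ≤
        ∑ v ∈ S' ∪ S, (Q.wt v : ℝ) * max 0 (GG Q v (a v) (ρ v) x y) :=
      Finset.sum_le_sum_of_subset_of_nonneg Finset.subset_union_left fun v _ _ =>
        mul_nonneg (hwt v) (le_max_left _ _)
    have h2 : ∑ v ∈ S, (Q.wt v : ℝ) * max 0 (GG Q v (a v) (ρ v) x y) =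
        ∑ v ∈ S' ∪ S, (Q.wt v : ℝ) * max 0 (GG Q v (a v) (ρ v) x y) := by
      apply Finset.sum_subset Finset.subset_union_right
      intro v _ hv
      rw [hGG0 v hv x hx y hy hxy]
      simp
    have h3 : ∑ v ∈ S, (Q.wt v : ℝ) * max 0 (GG Q v (a v) (ρ v) x y) =
        ∑ v ∈ S, (Q.wt v : ℝ) * max 0 (-(GG Q v (a v) (ρ v) x y)) +
          ∑ v ∈ S, (Q.wt v : ℝ) * GG Q v (a v) (ρ v) x y := by
      rw [← Finset.sum_add_distrib]
      refine Finset.sum_congr rfl fun v _ => ?_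
      rw [← mul_add]
      congr 1
      rcases le_total (GG Q v (a v) (ρ v) x y) 0 with h | h
      · rw [max_eq_left h, max_eq_right (by linarith)]
        ring
      · rw [max_eq_right h, max_eq_left (by linarith)]
        ring
    rw [hpair x hx y hy hxy, add_zero] at h3
    rw [← h2, h3] at h1
    exact h1.trans (hneg x hx y hy hxy S)
  intro x hx y hy z hz t ht hxy hzt hxt hzy S'
  have n1 := sub_ne_zero.mpr hxy
  have n2 := sub_ne_zero.mpr hzt
  have n3 := sub_ne_zero.mpr hxt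
  have n4 := sub_ne_zero.mpr hzy
  have hord : ∀ v, (Q.ord v ((x - y) * (z - t) / ((x - t) * (z - y))) : ℝ) =
      GG Q v (a v) (ρ v) x y + GG Q v (a v) (ρ v) z t - GG Q v (a v) (ρ v) x t -
        GG Q v (a v) (ρ v) z y := by
    intro v
    rw [PlaceData.ord_div (mul_ne_zero n1 n2) (mul_ne_zero n3 n4), Q.ord_mul v _ _ n1 n2,
        Q.ord_mul v _ _ n3 n4]
    unfold GG
    push_cast
    ring
  have hc0 : (x - y) * (z - t) / ((x - t) * (z - y)) ≠ 0 :=
    div_ne_zero (mul_ne_zero n1 n2) (mul_ne_zero n3 n4)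
  have hfin : ((∑ v ∈ S', Q.wt v * Q.pole v ((x - y) * (z - t) / ((x - t) * (z - y))) : ℤ) : ℝ) ≤
      ((384 * d * (d + 1) * Q.lossT : ℤ) : ℝ) := by
    push_cast
    have h1 : ∑ v ∈ S', (Q.wt v : ℝ) *
        (Q.pole v ((x - y) * (z - t) / ((x - t) * (z - y))) : ℝ) ≤
        ∑ v ∈ S', (Q.wt v : ℝ) * max 0 (-(GG Q v (a v) (ρ v) x y)) +
        ∑ v ∈ S', (Q.wt v : ℝ) * max 0 (-(GG Q v (a v) (ρ v) z t)) +
        ∑ v ∈ S', (Q.wt v : ℝ) * max 0 (GG Q v (a v) (ρ v) x t) +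
        ∑ v ∈ S', (Q.wt v : ℝ) * max 0 (GG Q v (a v) (ρ v) z y) := by
      rw [← Finset.sum_add_distrib, ← Finset.sum_add_distrib, ← Finset.sum_add_distrib]
      refine Finset.sum_le_sum fun v _ => ?_
      rw [← mul_add, ← mul_add, ← mul_add]
      apply mul_le_mul_of_nonneg_left _ (hwt v)
      rw [PlaceData.pole_of_ne hc0]
      push_cast
      rw [hord v]
      have e1 := le_max_left (0 : ℝ) (-(GG Q v (a v) (ρ v) x y))
      have e2 := le_max_left (0 : ℝ) (-(GG Q v (a v) (ρ v) z t))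
      have e3 := le_max_left (0 : ℝ) (GG Q v (a v) (ρ v) x t)
      have e4 := le_max_left (0 : ℝ) (GG Q v (a v) (ρ v) z y)
      have e5 := le_max_right (0 : ℝ) (-(GG Q v (a v) (ρ v) x y))
      have e6 := le_max_right (0 : ℝ) (-(GG Q v (a v) (ρ v) z t))
      have e7 := le_max_right (0 : ℝ) (GG Q v (a v) (ρ v) x t)
      have e8 := le_max_right (0 : ℝ) (GG Q v (a v) (ρ v) z y)
      apply max_le (by linarith) (by linarith)
    have h2 := hneg x hx y hy hxy S'
    have h3 := hneg z hz t ht hzt S'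
    have h4 := hpos x hx t ht hxt S'
    have h5 := hpos z hz y hy hzy S'
    have h6 : (8 : ℝ) * EE ≤ 8 * (48 * (d : ℝ) * (d + 1) * Q.lossT) :=
      mul_le_mul_of_nonneg_left hH (by norm_num)
    linarith
  exact_mod_cast hfin

end Pool.Agent.Q256.LH
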