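import Mathlib
import Pool.Agent.W277.UD.DegF
import Pool.Agent.Y362.CH.PD

/-!
# The degree of `K` over `k(x)` and the denominators of the characteristic polynomial of `x`
-/

namespace Pool.Agent.Q256.LH

open Polynomial Pool.Agent.W277.UB Pool.Agent.W277.UD Finset

universe u v w

section Norm

variable {F K : Type*} [Field F] [Field K] [Algebra F K] [FiniteDimensional F K]

lemma norm_sub_pow (x : K) (c : F) :
    Algebra.norm F (x - algebraMap F K c) =
      ((-1) ^ (minpoly F x).natDegree * (minpoly F x).eval c) ^
        Module.finrank (IntermediateField.adjoin F {x}) K := by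
  classical
  set E := IntermediateField.adjoin F {x} with hE
  set g : E := IntermediateField.AdjoinSimple.gen F x with hg
  have hint : IsIntegral F x := IsIntegral.of_finite F x
  have h1 : x - algebraMap F K c = algebraMap E K (g - algebraMap F E c) := by
    rw [map_sub, ← IsScalarTower.algebraMap_apply]
    rfl
  rw [h1, ← Algebra.norm_norm (R := F) (S := E), Algebra.norm_algebraMap, map_pow]
  have h2 : minpoly F g = minpoly F x := by
    rw [hg]
    exact IntermediateField.minpoly_gen F x
  have hgen : IntermediateField.adjoin F {g} = ⊤ := by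
    rw [Field.primitive_element_iff_minpoly_natDegree_eq, h2]
    exact (IntermediateField.adjoin.finrank hint).symm
  rw [norm_sub_gen g hgen c, h2]

lemma eq_minpoly_pow [Infinite F] (x : K) (m : F[X]) (hm : ∀ c : F,
    Algebra.norm F (x - algebraMap F K c) = (-1) ^ (Module.finrank F K) * m.eval c) :
    m = (minpoly F x) ^ Module.finrank (IntermediateField.adjoin F {x}) K := by
  apply Polynomial.funext
  intro c
  have h1 := hm c
  rw [norm_sub_pow, mul_pow, ← pow_mul] at h1
  have hint : IsIntegral F x := IsIntegral.of_finite F x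
  have h2 : (minpoly F x).natDegree * Module.finrank (IntermediateField.adjoin F {x}) K =
      Module.finrank F K := by
    rw [← IntermediateField.adjoin.finrank hint]
    exact Module.finrank_mul_finrank F (IntermediateField.adjoin F {x}) K
  rw [h2] at h1
  have h3 : ((-1 : F) ^ Module.finrank F K) ≠ 0 := pow_ne_zero _ (by simp)
  rw [eval_pow]
  exact (mul_left_cancel₀ h3 h1).symm

end Norm

section Prim

variable {k : Type*} [Field k]

lemma exists_prim (μ : (RatFunc k)[X]) (hμ : μ ≠ 0) :
    ∃ (G : k[X][X]) (u : RatFunc k), u ≠ 0 ∧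
      G.map (algebraMap k[X] (RatFunc k)) = C u * μ ∧ G.IsPrimitive := by
  classical
  let _ : NormalizedGCDMonoid k[X] := Classical.choice inferInstance
  obtain ⟨b, hbm, hb⟩ := IsLocalization.integerNormalization_spec (nonZeroDivisors k[X]) μ
  set q := IsLocalization.integerNormalization (nonZeroDivisors k[X]) μ with hq
  have hb0 : algebraMap k[X] (RatFunc k) b ≠ 0 := by
    rw [Ne, map_eq_zero_iff _ (RatFunc.algebraMap_injective k)]
    exact nonZeroDivisors.ne_zero hbm
  have hsm : (b • μ : (RatFunc k)[X]) = C (algebraMap k[X] (RatFunc k) b) * μ := by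
    rw [← algebraMap_smul (RatFunc k) b μ, Polynomial.smul_eq_C_mul]
  have hq0 : q ≠ 0 := by
    intro h
    rw [h, Polynomial.map_zero, hsm] at hb
    exact mul_ne_zero (C_ne_zero.2 hb0) hμ hb.symm
  have hc0 : algebraMap k[X] (RatFunc k) q.content ≠ 0 := by
    rw [Ne, map_eq_zero_iff _ (RatFunc.algebraMap_injective k)]
    exact fun h => hq0 (content_eq_zero_iff.1 h)
  refine ⟨q.primPart, (algebraMap k[X] (RatFunc k) q.content)⁻¹ *
    algebraMap k[X] (RatFunc k) b, mul_ne_zero (inv_ne_zero hc0) hb0, ?_,
    isPrimitive_primPart q⟩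
  have h1 := congrArg (Polynomial.map (algebraMap k[X] (RatFunc k))) (eq_C_content_mul_primPart q)
  rw [hb, hsm, Polynomial.map_mul, map_C] at h1
  rw [C_mul, mul_assoc, h1, ← mul_assoc, ← C_mul, inv_mul_cancel₀ hc0, C_1, one_mul]

lemma prim_pow {R : Type*} [CommRing R] [IsDomain R] [NormalizedGCDMonoid R] {G : R[X]}
    (hG : G.IsPrimitive) (e : ℕ) : (G ^ e).IsPrimitive := by
  induction e with
  | zero => simp
  | succ e ih =>
    rw [pow_succ]
    exact ih.mul hG

end Prim

section Deg

set_option synthInstance.maxHeartbeats 200000 in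
lemma fr_mul {k : Type v} {K : Type u} [Field k] [Field K] [Algebra k K]
    (A : IntermediateField k K) (B : IntermediateField A K) (h1 : FiniteDimensional A B)
    (h2 : FiniteDimensional B K) :
    Module.Finite A K ∧ Module.finrank A K = Module.finrank A B * Module.finrank B K :=
  ⟨Module.Finite.trans B K, (Module.finrank_mul_finrank A B K).symm⟩

variable {k : Type v} {K : Type u} [Field k] [Field K] [Algebra k K]
  [Algebra (RatFunc k) K] [IsScalarTower k (RatFunc k) K] [FiniteDimensional (RatFunc k) K]

open Pool.Agent.Y362.CH in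
/-- **The degree over `k(x)`.** -/
theorem deg_exact (x : K) (hx : ∀ p : k[X], aeval x p = 0 → p = 0) (m : (RatFunc k)[X])
    (hm : m = (minpoly (RatFunc k) x) ^
      Module.finrank (IntermediateField.adjoin (RatFunc k) {x}) K)
    (Den : k[X]) (hDen : Den ≠ 0) (F : ℕ → k[X])
    (hF : ∀ j, algebraMap k[X] (RatFunc k) (F j) = algebraMap k[X] (RatFunc k) Den * m.coeff j)
    (B : ℕ) (hB : ∀ j, (F j).natDegree ≤ B) :
    Module.Finite (IntermediateField.adjoin k {x}) K ∧
      Module.finrank (IntermediateField.adjoin k {x}) K ≤ B := by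
  classical
  set t : K := algebraMap (RatFunc k) K (algebraMap k[X] (RatFunc k) X) with htd
  set e := Module.finrank (IntermediateField.adjoin (RatFunc k) {x}) K with he
  set μ := minpoly (RatFunc k) x with hμ
  have hintx : IsIntegral (RatFunc k) x := IsIntegral.of_finite _ x
  have hμ0 : μ ≠ 0 := minpoly.ne_zero hintx
  obtain ⟨G, u, hu, hG, hGp⟩ := exists_prim μ hμ0
  have hG0 : G ≠ 0 := hGp.ne_zero
  have hDen' : algebraMap k[X] (RatFunc k) Den ≠ 0 := by
    rwa [Ne, map_eq_zero_iff _ (RatFunc.algebraMap_injective k)]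
  -- the polynomial with coefficients `F j`
  set n := m.natDegree with hn
  set Φ : k[X][X] := ∑ j ∈ range (n + 1), monomial j (F j) with hΦ
  have hΦm : Φ.map (algebraMap k[X] (RatFunc k)) = C (algebraMap k[X] (RatFunc k) Den) * m := by
    ext1 j
    rw [coeff_map, coeff_C_mul, ← hF, hΦ, finsetSum_coeff]
    simp only [coeff_monomial]
    rw [Finset.sum_ite_eq' (range (n + 1)) j]
    split_ifs with h
    · rfl
    · rw [Finset.mem_range, not_lt] at h
      have h1 : m.coeff j = 0 := coeff_eq_zero_of_natDegree_lt (by omega)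
      rw [hF, h1, mul_zero, map_zero]
  have hm0 : m ≠ 0 := by
    rw [hm]
    exact pow_ne_zero _ hμ0
  have hΦ0 : Φ ≠ 0 := by
    intro h
    rw [h, Polynomial.map_zero] at hΦm
    exact mul_ne_zero (C_ne_zero.2 hDen') hm0 hΦm.symm
  have hdvd : G ^ e ∣ Φ := by
    let _ : NormalizedGCDMonoid k[X] := Classical.choice inferInstance
    have hp : (G ^ e).IsPrimitive := prim_pow hGp e
    apply hp.dvd_of_fraction_map_dvd_fraction_map (K := RatFunc k)
    rw [hΦm, Polynomial.map_pow, hG, mul_pow, ← hm]
    refine ⟨C (algebraMap k[X] (RatFunc k) Den * (u ^ e)⁻¹), ?_⟩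
    rw [← C_pow]
    have hue : u ^ e ≠ 0 := pow_ne_zero _ hu
    calc C (algebraMap k[X] (RatFunc k) Den) * m
        = C (u ^ e * (algebraMap k[X] (RatFunc k) Den * (u ^ e)⁻¹)) * m := by
          congr 2
          field_simp
      _ = C (u ^ e) * m * C (algebraMap k[X] (RatFunc k) Den * (u ^ e)⁻¹) := by
          rw [C_mul]
          ring
  obtain ⟨c, hc⟩ := hdvd
  have hc0 : c ≠ 0 := by
    rintro rfl
    rw [mul_zero] at hc
    exact hΦ0 hc
  -- degrees in `T`
  have hsw0 : ∀ f : k[X][X], f ≠ 0 → Bivariate.swap (R := k) f ≠ 0 := by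
    intro f hf h
    apply hf
    have := Bivariate.swap_swap_apply (R := k) f
    rw [h, map_zero] at this
    exact this.symm
  have hsΦ : (Bivariate.swap (R := k) Φ).natDegree ≤ B := by
    rw [hΦ, map_sum]
    refine natDegree_sum_le_of_forall_le _ _ fun j _ => ?_
    rw [Bivariate.swap_monomial]
    refine (natDegree_mul_C_le _ _).trans ?_
    exact natDegree_map_le.trans (hB j)
  have hsG : e * (Bivariate.swap (R := k) G).natDegree ≤ B := by
    refine le_trans ?_ hsΦ
    rw [hc, map_mul, map_pow, natDegree_mul (pow_ne_zero _ (hsw0 G hG0)) (hsw0 c hc0),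
      natDegree_pow]
    omega
  set g := (Bivariate.swap (R := k) G).natDegree with hg
  -- the equation of `t`
  have hxm : x ∈ IntermediateField.adjoin k {x} := IntermediateField.mem_adjoin_simple_self k x
  set x1 : IntermediateField.adjoin k {x} := ⟨x, hxm⟩ with hx1
  set q : (IntermediateField.adjoin k {x})[X] :=
    (Bivariate.swap (R := k) G).map (aeval x1).toRingHom with hq
  have hqB : q.natDegree ≤ g := natDegree_map_le
  have hinj : Function.Injective (aeval x1 : k[X] →ₐ[k] IntermediateField.adjoin k {x}) := by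
    rw [injective_iff_map_eq_zero]
    intro p hp
    apply hx
    have h1 := congrArg (algebraMap (IntermediateField.adjoin k {x}) K) hp
    rw [map_zero] at h1
    rw [← h1]
    have h2 := aeval_algebraMap_apply K x1 p
    rw [← h2]
    rfl
  have hq0 : q ≠ 0 := by
    rw [hq, Ne, Polynomial.map_eq_zero_iff hinj]
    exact hsw0 G hG0
  have hqt : aeval t q = 0 := by
    have h1 : ∀ f : k[X][X], aeval t (f.map (aeval x1 : k[X] →ₐ[k]
        IntermediateField.adjoin k {x}).toRingHom) = aevalAeval x t f := by
      intro f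
      induction f using Polynomial.induction_on' with
      | add p q hp hq => rw [Polynomial.map_add, map_add, map_add, hp, hq]
      | monomial j a =>
        rw [map_monomial, aeval_monomial]
        have h2 : algebraMap (IntermediateField.adjoin k {x}) K
            ((aeval x1 : k[X] →ₐ[k] IntermediateField.adjoin k {x}).toRingHom a) = aeval x a := by
          have h3 := aeval_algebraMap_apply K x1 a
          exact h3.symm
        rw [h2, ← C_mul_X_pow_eq_monomial, map_mul, map_pow, aevalAeval_C, aevalAeval_Y]
    have h2 : aevalAeval x t (Bivariate.swap (R := k) G) = aevalAeval t x G :=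
      Bivariate.aevalAeval_swap x t G
    have h3 : ∀ f : k[X][X], aevalAeval t x f =
        aeval x (f.map (algebraMap k[X] (RatFunc k))) := by
      intro f
      induction f using Polynomial.induction_on' with
      | add p q hp hq => rw [Polynomial.map_add, map_add, map_add, hp, hq]
      | monomial j a =>
        rw [map_monomial, aeval_monomial, ← C_mul_X_pow_eq_monomial, map_mul, map_pow,
          aevalAeval_C, aevalAeval_Y, haev]
    rw [hq, h1, h2, h3, hG, map_mul, hμ, minpoly.aeval, mul_zero]
  have hint : IsIntegral (IntermediateField.adjoin k {x}) t :=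
    (isAlgebraic_iff_isIntegral).1 ⟨q, hq0, hqt⟩
  have hdeg : (minpoly (IntermediateField.adjoin k {x}) t).natDegree ≤ g :=
    (natDegree_le_natDegree (minpoly.degree_le_of_ne_zero _ t hq0 hqt)).trans hqB
  have hfin1 : FiniteDimensional (IntermediateField.adjoin k {x})
      (IntermediateField.adjoin (IntermediateField.adjoin k {x}) {t}) :=
    IntermediateField.adjoin.finiteDimensional hint
  have hr1 := IntermediateField.adjoin.finrank hint
  set F₂ := IntermediateField.adjoin (IntermediateField.adjoin k {x}) {t} with hF₂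
  have ht : t ∈ F₂ := IntermediateField.mem_adjoin_simple_self _ t
  have hA : ∀ a : k[X], aeval t a ∈ F₂ := by
    intro a
    rw [aeval_eq_sum_range]
    refine sum_mem fun i _ => ?_
    rw [Algebra.smul_def]
    refine mul_mem ?_ (pow_mem ht i)
    rw [IsScalarTower.algebraMap_apply k (IntermediateField.adjoin k {x}) K]
    exact F₂.algebraMap_mem _
  have hR : ∀ r : RatFunc k, algebraMap (RatFunc k) K r ∈ F₂ := by
    intro r
    obtain ⟨a, b, hb, rfl⟩ := exists_mk r
    rw [map_div₀, haev a, haev b]
    exact div_mem (hA a) (hA b)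
  have hxF₂ : x ∈ F₂ := by
    have h1 : algebraMap (IntermediateField.adjoin k {x}) K x1 ∈ F₂ := F₂.algebraMap_mem _
    exact h1
  set E := IntermediateField.adjoin (RatFunc k) {x} with hE
  have hEF : ∀ y : K, y ∈ E → y ∈ F₂ := by
    intro y hy
    have h1 : E ≤ ({ F₂.toSubfield with algebraMap_mem' := hR } :
        IntermediateField (RatFunc k) K) := by
      rw [hE, IntermediateField.adjoin_le_iff]
      intro y hy
      rw [Set.mem_singleton_iff] at hy
      subst hy
      exact hxF₂
    exact h1 hy
  obtain ⟨hfin2, hr2⟩ : Module.Finite F₂ K ∧ Module.finrank F₂ K ≤ e := by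
    set b := Module.finBasis E K with hb
    have hspan : Submodule.span F₂ (Set.range b) = ⊤ := by
      rw [eq_top_iff]
      intro y _
      rw [← b.sum_repr y]
      refine Submodule.sum_mem _ fun i _ => ?_
      have h1 : b.repr y i • b i = (⟨((b.repr y i : E) : K), hEF _ (b.repr y i).2⟩ : F₂) • b i := by
        rw [Algebra.smul_def, Algebra.smul_def]
        rfl
      rw [h1]
      exact Submodule.smul_mem _ _ (Submodule.subset_span ⟨i, rfl⟩)
    refine ⟨Module.finite_def.2 (Submodule.fg_def.2 ⟨Set.range b, Set.finite_range b, hspan⟩), ?_⟩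
    have h2 := finrank_range_le_card (R := F₂) (b : Fin (Module.finrank E K) → K)
    rw [Set.finrank, hspan, finrank_top, Fintype.card_fin] at h2
    exact h2
  obtain ⟨h7, h8⟩ := fr_mul (IntermediateField.adjoin k {x}) F₂ hfin1 hfin2
  refine ⟨h7, ?_⟩
  rw [h8, hr1, mul_comm]
  exact (Nat.mul_le_mul hr2 hdeg).trans hsG

end Deg

end Pool.Agent.Q256.LH
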