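import Pool.Agent.Q256.LH.B1

/-!
# The degree of `K` over `k(x)` is at most the degree of the poles of `x`
-/

namespace Pool.Agent.Q256.LH

open Polynomial Pool.Agent.W277.UB Pool.Agent.W277.UD Finset

universe w

section Main

variable {k : Type*} {K : Type w} [Field k] [CharZero k] [Field K] [Algebra k K]
  [Algebra (RatFunc k) K] [IsScalarTower k (RatFunc k) K] [FiniteDimensional (RatFunc k) K]
  {D : Derivation k K K}

/-- **The degree over `k(u)` is at most the degree of the poles.** -/
theorem deg_pole (c1 : ChartN.{w} k k[X] (RatFunc k) K D)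
    (c2 : ChartN.{w} k (InfRing k) (RatFunc k) K D) (u : K)
    (hut : ∀ p : k[X], aeval u p = 0 → p = 0)
    (T1 : Finset c1.Pl) (hT1 : ∀ v, v ∉ T1 → pl (c1.ord v) u = 0)
    (T2 : Finset c2.Pl) (hT2 : ∀ v, v ∉ T2 → pl (c2.ord v) u = 0) :
    (Module.finrank (IntermediateField.adjoin k {u}) K : ℤ) ≤
        ∑ v ∈ T1, (algebraMap k[X] (RatFunc k) (c1.g v)).intDegree * pl (c1.ord v) u +
        ∑ v ∈ T2, (-(algebraMap (InfRing k) (RatFunc k) (c2.g v)).intDegree) *
          pl (c2.ord v) u := by
  classical
  have : CharZero (RatFunc k) := charZero_of_injective_algebraMap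
    (algebraMap k (RatFunc k)).injective
  obtain ⟨Den, hDen0, hDen⟩ := exists_den c1 c2 u T1 hT1 T2 hT2
  set B := ∑ v ∈ T1, (algebraMap k[X] (RatFunc k) (c1.g v)).intDegree * pl (c1.ord v) u +
        ∑ v ∈ T2, (-(algebraMap (InfRing k) (RatFunc k) (c2.g v)).intDegree) *
          pl (c2.ord v) u with hB
  set n := Module.finrank (RatFunc k) K with hn
  obtain ⟨m, hmn, hmm, hmu, hmnorm⟩ := Pool.Agent.Y362.CH.norm_sub_any (F := RatFunc k) u
  rw [← hn] at hmn hmnorm
  have hu : ∀ c : k, u ≠ algebraMap k K c := by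
    intro c hc
    have h1 := hut (X - C c) (by rw [map_sub, aeval_X, aeval_C, hc, sub_self])
    exact X_sub_C_ne_zero c h1
  have hu0 : u ≠ 0 := by
    have := hu 0
    rwa [map_zero] at this
  have hinf : Infinite (RatFunc k) := CharZero.infinite _
  have hmp := eq_minpoly_pow u m (by
    intro c
    rw [← hn]
    exact hmnorm c)
  -- values
  have hval : ∀ c : k, ∃ p : k[X], algebraMap k[X] (RatFunc k) p =
      algebraMap k[X] (RatFunc k) Den * m.eval (algebraMap k (RatFunc k) c) ∧
      (p.natDegree : ℤ) ≤ B := by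
    intro c
    have hne : u - algebraMap k K c ≠ 0 := sub_ne_zero.mpr (hu c)
    have hord : ∀ (o : K → ℤ), Val k o → - pl o u ≤ o (u - algebraMap k K c) := by
      intro o ho
      have h1 : GG o (- pl o u) (u - algebraMap k K c) := by
        apply ho.GG_sub
        · intro _
          unfold pl
          have := le_max_right 0 (- o u)
          linarith
        · intro h
          have hc : c ≠ 0 := by
            rintro rfl
            exact h (map_zero _)
          rw [ho.alg c hc]
          have := pl_nonneg o u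
          linarith
      exact h1 hne
    obtain ⟨p, hp1, hp2⟩ := hDen _ hne (fun v => hord _ (c1.val v)) (fun v => hord _ (c2.val v))
    have hnorm := hmnorm (algebraMap k (RatFunc k) c)
    rw [← IsScalarTower.algebraMap_apply] at hnorm
    rw [hnorm] at hp1
    refine ⟨(-1) ^ n * p, ?_, ?_⟩
    · rw [map_mul, hp1, map_pow, map_neg, map_one]
      have h1 : ((-1 : RatFunc k) ^ n) * ((-1) ^ n) = 1 := by
        rw [← mul_pow]
        simp
      linear_combination (algebraMap k[X] (RatFunc k) Den *
        m.eval (algebraMap k (RatFunc k) c)) * h1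
    · refine le_trans ?_ hp2
      rcases neg_one_pow_eq_or k[X] n with h | h
      · rw [h, one_mul]
      · rw [h, neg_one_mul, natDegree_neg]
  -- the space of polynomials of bounded degree
  let V : Submodule k (RatFunc k) := (degreeLE k (B.toNat : ℕ)).map
    (IsScalarTower.toAlgHom k k[X] (RatFunc k)).toLinearMap
  have hco : ∀ j, (C (algebraMap k[X] (RatFunc k) Den) * m).coeff j ∈ V := by
    apply coeff_mem_of_eval
    intro c
    obtain ⟨p, hp1, hp2⟩ := hval c
    rw [eval_mul, eval_C, ← hp1]
    refine ⟨p, ?_, rfl⟩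
    rw [SetLike.mem_coe, mem_degreeLE]
    refine degree_le_of_natDegree_le ?_
    omega
  have hco' : ∀ j, ∃ p : k[X], algebraMap k[X] (RatFunc k) p =
      algebraMap k[X] (RatFunc k) Den * m.coeff j ∧ p.natDegree ≤ B.toNat := by
    intro j
    obtain ⟨p, hp1, hp2⟩ := hco j
    rw [SetLike.mem_coe, mem_degreeLE] at hp1
    rw [coeff_C_mul] at hp2
    exact ⟨p, hp2, natDegree_le_of_degree_le hp1⟩
  choose F hF1 hF2 using hco'
  have hB0 : 0 ≤ B := by
    obtain ⟨p, -, hp⟩ := hval 0
    have : (0 : ℤ) ≤ p.natDegree := Int.natCast_nonneg _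
    linarith
  obtain ⟨-, h1⟩ := deg_exact u hut m hmp Den hDen0 F hF1 B.toNat hF2
  have h2 : (B.toNat : ℤ) = B := Int.toNat_of_nonneg hB0
  have h3 : (Module.finrank (IntermediateField.adjoin k {u}) K : ℤ) ≤ (B.toNat : ℤ) := by
    exact_mod_cast h1
  exact h3.trans h2.le

end Main

end Pool.Agent.Q256.LH
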