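import Pool.Agent.TH450.FH.X5
import Pool.Agent.Q256.LH.B2

/-!
# Place data with loss bounded by the ramification, and degrees
-/

set_option autoImplicit false
set_option maxHeartbeats 400000

namespace Pool.Agent.Q256.LH

open Polynomial Pool.Agent.W277.UB Pool.Agent.W277.UD Finset Pool.Agent.TH450.FH

universe w

variable (k : Type*) (K : Type w) [Field k] [CharZero k] [Field K] [Algebra k K]
  [Algebra (RatFunc k) K] [IsScalarTower k (RatFunc k) K] [FiniteDimensional (RatFunc k) K]

/-- Place data with loss bounded by the ramification. -/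
theorem exists_pdH (D0 : Derivation k K K)
    (hD0 : ∀ x : RatFunc k, D0 (algebraMap (RatFunc k) K x) = algebraMap (RatFunc k) K (ratD k x))
    (hDker : ∀ x, D0 x = 0 → IsAlgebraic k x)
    (c1 : ChartX.{w} k k[X] (RatFunc k) K D0) (c2 : ChartX.{w} k (InfRing k) (RatFunc k) K D0)
    (pr : c1.Pl → k[X]) (ev : c1.Pl → ℕ) (hpr : ∀ v, Prime (pr v)) (hev1 : ∀ v, 1 ≤ ev v)
    (hev : ∀ v, c1.ord v (algebraMap (RatFunc k) K (algebraMap k[X] (RatFunc k) (pr v))) = ev v)
    (R0 : ℤ) (hR : ∀ T : Finset c1.Pl, ∑ v ∈ T,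
      (algebraMap k[X] (RatFunc k) (c1.g v)).intDegree * ((ev v : ℤ) - 1) ≤ R0) :
    ∃ Q : PlaceData.{w} (algebraicClosure k K) K, Q.lossT ≤ 2 * R0 ∧
      ∀ x : K, (∀ p : k[X], aeval x p = 0 → p = 0) → ∀ S : Finset Q.Pl,
        (∀ v, v ∉ S → Q.pole v x = 0) →
        (Module.finrank (IntermediateField.adjoin k {x}) K : ℤ) ≤
          ∑ v ∈ S, Q.wt v * Q.pole v x := by
  classical
  have halg : ∀ x : K, IsAlgebraic k x →
      ∃ c : algebraicClosure k K, algebraMap (algebraicClosure k K) K c = x :=
    fun x hx => ⟨⟨x, hx.isIntegral⟩, rfl⟩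
  have hDker' : ∀ x, D0 x = 0 → ∃ c : algebraicClosure k K,
      algebraMap (algebraicClosure k K) K c = x := fun x hx => halg x (hDker x hx)
  have hcalg : ∀ c : algebraicClosure k K, IsAlgebraic k (algebraMap (algebraicClosure k K) K c) :=
    fun c => mem_algebraicClosure_iff.1 c.2
  have hord0 : ∀ (o : K → ℤ), Val k o → ∀ c : algebraicClosure k K, c ≠ 0 →
      o (algebraMap (algebraicClosure k K) K c) = 0 := by
    intro o ho c hc
    have hc' : algebraMap (algebraicClosure k K) K c ≠ 0 := by
      rw [Ne, map_eq_zero]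
      exact hc
    have hφ : ∀ r : k, GG o 0 (algebraMap k K r) := by
      intro r h
      rw [ho.alg r]
      rintro rfl
      exact h (map_zero _)
    have h1 := GG_of_integral ho (algebraMap k K) hφ (algebraMap (algebraicClosure k K) K c)
      (hcalg c).isIntegral hc'
    have h2 := GG_of_integral ho (algebraMap k K) hφ (algebraMap (algebraicClosure k K) K c)⁻¹
      (hcalg c).inv.isIntegral (inv_ne_zero hc')
    rw [ho.inv hc'] at h2
    linarith
  have hDc : ∀ c : algebraicClosure k K, D0 (algebraMap (algebraicClosure k K) K c) = 0 := by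
    intro c
    set y := algebraMap (algebraicClosure k K) K c with hy
    have h1 : aeval y (minpoly k y) = 0 := minpoly.aeval k y
    have h2 := congrArg D0 h1
    rw [Derivation.map_aeval, map_zero, smul_eq_mul] at h2
    have hsep : (minpoly k y).Separable := (minpoly.irreducible (hcalg c).isIntegral).separable
    exact (mul_eq_zero.1 h2).resolve_left (hsep.aeval_derivative_ne_zero h1)
  let DE : Derivation (algebraicClosure k K) K K :=
    { toFun := D0
      map_add' := map_add D0
      map_smul' := by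
        intro c x
        have h1 : c • x = algebraMap (algebraicClosure k K) K c * x := Algebra.smul_def c x
        have h2 : c • D0 x = algebraMap (algebraicClosure k K) K c * D0 x :=
          Algebra.smul_def c (D0 x)
        show D0 (c • x) = c • D0 x
        rw [h1, h2, Derivation.leibniz, hDc, smul_zero, add_zero, smul_eq_mul]
      map_one_eq_zero' := D0.map_one_eq_zero
      leibniz' := fun x y => D0.leibniz x y }
  have hDE : ∀ x, DE x = D0 x := fun _ => rfl
  have hDEit : ∀ (j : ℕ) x, (DE^[j]) x = (D0^[j]) x := by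
    intro j x
    rfl
  -- finiteness of the ramified places
  have hfinr : {v : c1.Pl | ev v ≠ 1}.Finite := by
    by_contra hinf
    have hinf' : {v : c1.Pl | ev v ≠ 1}.Infinite := hinf
    obtain ⟨T, hT, hTc⟩ := hinf'.exists_subset_card_eq (R0.toNat + 1)
    have h1 := hR T
    have h2 : (T.card : ℤ) ≤ ∑ v ∈ T, (algebraMap k[X] (RatFunc k) (c1.g v)).intDegree *
        ((ev v : ℤ) - 1) := by
      rw [Finset.card_eq_sum_ones]
      push_cast
      refine Finset.sum_le_sum fun v hv => ?_
      have h3 := pos_poly k _ (c1.g_ne v) (c1.g_nu v)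
      have h4 : ev v ≠ 1 := hT hv
      have h5 := hev1 v
      have h6 : (1 : ℤ) ≤ (ev v : ℤ) - 1 := by omega
      nlinarith
    rw [hTc] at h2
    push_cast at h2
    have h3 := Int.self_le_toNat R0
    linarith
  set RS : Finset c1.Pl := hfinr.toFinset with hRS
  have hconst : ∀ x : K, x ≠ 0 → (∀ v, 0 ≤ c1.ord v x) → (∀ v, 0 ≤ c2.ord v x) →
      ∃ c : algebraicClosure k K, algebraMap (algebraicClosure k K) K c = x := by
    intro x hx h1 h2
    apply halg
    apply alg_of_coeff k K x (Algebra.IsIntegral.isIntegral x)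
    intro n
    apply const_of_both k
    · exact c1.integral x hx h1 n
    · obtain ⟨r, hr⟩ := c2.integral x hx h2 n
      rw [← hr]
      exact r.2
  -- iterates
  have hit : ∀ (o : K → ℤ) (l L : ℤ), 0 ≤ l → (L = 0 ∧ l = 0 ∨ L = l + 1) →
      (∀ x m, GG o m x → GG o (m - 1 - l) (D0 x)) → (∀ x, GG o 0 x → GG o (-l) (D0 x)) →
      (∀ x (j : ℕ) (m : ℤ), x ≠ 0 → (D0^[j]) x ≠ 0 → m ≤ o x → m - j - j * L ≤ o ((D0^[j]) x)) ∧
      (∀ x (j : ℕ), x ≠ 0 → (D0^[j]) x ≠ 0 → 0 ≤ o x → - j * L ≤ o ((D0^[j]) x)) := by
    intro o l L hl hL h1 h2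
    have hA : ∀ x (j : ℕ) (m : ℤ), GG o m x → GG o (m - j - j * l) ((D0^[j]) x) := by
      intro x j m hx
      induction j with
      | zero => simpa using hx
      | succ j ih =>
        rw [Function.iterate_succ_apply']
        refine GG_mono (h1 _ _ ih) ?_
        push_cast
        linarith
    refine ⟨fun x j m hx hj hm => ?_, fun x j hx hj hm => ?_⟩
    · have h3 := hA x j m (fun _ => hm) hj
      have h4 : (j : ℤ) * l ≤ j * L := by
        apply mul_le_mul_of_nonneg_left _ (Int.natCast_nonneg j)
        rcases hL with ⟨h5, h6⟩ | h5 <;> linarith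
      linarith
    · rcases hL with ⟨h5, h6⟩ | h5
      · subst h5 h6
        have h3 : ∀ j : ℕ, GG o 0 ((D0^[j]) x) := by
          intro j
          induction j with
          | zero => exact fun _ => hm
          | succ j ih =>
            rw [Function.iterate_succ_apply']
            simpa using h2 _ ih
        simpa using h3 j hj
      · have h3 := hA x j 0 (fun _ => hm) hj
        rw [h5]
        linarith
  let loss1 : c1.Pl → ℤ := fun v => if ev v = 1 then 0 else ev v
  have hl1nn : ∀ v, 0 ≤ loss1 v := by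
    intro v
    simp only [loss1]
    split_ifs
    · exact le_rfl
    · exact Int.natCast_nonneg _
  have hdl1 := fun v => hit (c1.ord v) ((ev v : ℤ) - 1) (loss1 v) (by
      have := hev1 v
      omega) (by
      by_cases h : ev v = 1
      · left
        simp only [loss1, if_pos h, h]
        simp
      · right
        simp only [loss1, if_neg h]
        ring) (by
      intro x m hx
      have h1 := tame' (c1.val v) D0 (ev v - 1) (by
        intro y hy
        have h2 := fin_loss c1 hD0 v (pr v) (hpr v) (ev v) (hev1 v) (hev v) y hy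
        refine GG_mono h2 ?_
        have := hev1 v
        omega) x m hx
      refine GG_mono h1 ?_
      have := hev1 v
      omega) (fin_loss c1 hD0 v (pr v) (hpr v) (ev v) (hev1 v) (hev v))
  have hdl2 := fun v => hit (c2.ord v) 0 0 le_rfl (Or.inl ⟨rfl, rfl⟩) (by
      intro x m hx
      have h1 := (c2.val v).deriv_le D0 (inf_loss c2 hD0 v) x m hx
      simpa using h1) (by
      intro x hx
      simpa using inf_loss c2 hD0 v x hx)
  let ord : c1.Pl ⊕ c2.Pl → K → ℤ := Sum.elim c1.ord c2.ord
  let wt : c1.Pl ⊕ c2.Pl → ℤ := Sum.elim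
    (fun v => (algebraMap k[X] (RatFunc k) (c1.g v)).intDegree)
    (fun v => -(algebraMap (InfRing k) (RatFunc k) (c2.g v)).intDegree)
  let loss : c1.Pl ⊕ c2.Pl → ℤ := Sum.elim loss1 (fun _ => 0)
  let lossS : Finset (c1.Pl ⊕ c2.Pl) := RS.disjSum ∅
  have hwt1 : ∀ v, 1 ≤ wt v := by
    rintro (v | v)
    · exact pos_poly k _ (c1.g_ne v) (c1.g_nu v)
    · exact pos_inf k _ (c2.g_ne v) (c2.g_nu v)
  -- product formula
  have hprod : ∀ x, x ≠ 0 → ∀ S : Finset (c1.Pl ⊕ c2.Pl), (∀ v, v ∉ S → 0 ≤ ord v x) →
      ∑ v ∈ S, wt v * ord v x ≤ 0 := by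
    intro x hx S hS
    set T1 := S.toLeft ∪ (c1.fin x hx).toFinset with hT1
    set T2 := S.toRight ∪ (c2.fin x hx).toFinset with hT2
    have h1 := c1.toChartN.sum (addFn_poly k) x hx T1 (by
      intro v hv
      by_contra h
      exact hv (by simp [hT1, h]))
    have h2 := c2.toChartN.sum (addFn_inf k) x hx T2 (by
      intro v hv
      by_contra h
      exact hv (by simp [hT2, h]))
    have h3 : ∑ v ∈ T1.disjSum T2, wt v * ord v x = 0 := by
      rw [Finset.sum_disjSum]
      have h4 : ∑ v ∈ T1, wt (Sum.inl v) * ord (Sum.inl v) x =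
          ∑ v ∈ T1, (algebraMap k[X] (RatFunc k) (c1.g v)).intDegree * c1.ord v x := rfl
      have h5 : ∑ v ∈ T2, wt (Sum.inr v) * ord (Sum.inr v) x =
          ∑ v ∈ T2, (-(algebraMap (InfRing k) (RatFunc k) (c2.g v)).intDegree) * c2.ord v x :=
        rfl
      rw [h4, h5, h1, h2]
      ring
    have hST : S ⊆ T1.disjSum T2 := by
      rintro (v | v) hv
      · rw [Finset.inl_mem_disjSum]
        simp [hT1, hv]
      · rw [Finset.inr_mem_disjSum]
        simp [hT2, hv]
    rw [← Finset.sum_sdiff hST] at h3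
    have h6 : 0 ≤ ∑ v ∈ T1.disjSum T2 \ S, wt v * ord v x :=
      Finset.sum_nonneg fun v hv => mul_nonneg (zero_le_one.trans (hwt1 v))
        (hS v (Finset.mem_sdiff.mp hv).2)
    linarith
  let Q : PlaceData.{w} (algebraicClosure k K) K := {
    Pl := c1.Pl ⊕ c2.Pl
    ord := ord
    wt := wt
    wt_nonneg := fun v => zero_le_one.trans (hwt1 v)
    wt_one := hwt1
    ord_mul := by
      rintro (v | v) x y hx hy
      · exact (c1.val v).mul x y hx hy
      · exact (c2.val v).mul x y hx hy
    ord_add := by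
      rintro (v | v) x y m hx hy hxy h1 h2
      · exact (c1.val v).add x y m hx hy hxy h1 h2
      · exact (c2.val v).add x y m hx hy hxy h1 h2
    ord_alg := by
      rintro (v | v) c hc
      · exact hord0 _ (c1.val v) c hc
      · exact hord0 _ (c2.val v) c hc
    fin := by
      intro x hx
      have h1 : {v | ord v x ≠ 0} ⊆
          Sum.inl '' {v | c1.ord v x ≠ 0} ∪ Sum.inr '' {v | c2.ord v x ≠ 0} := by
        rintro (v | v) hv
        · left
          exact ⟨v, hv, rfl⟩
        · right
          exact ⟨v, hv, rfl⟩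
      exact (((c1.fin x hx).image _).union ((c2.fin x hx).image _)).subset h1
    prod_formula := hprod
    const := by
      intro x hx h
      exact hconst x hx (fun v => h (Sum.inl v)) (fun v => h (Sum.inr v))
    D := DE
    D_ker := hDker'
    loss := loss
    loss_nonneg := by
      rintro (v | v)
      · exact hl1nn v
      · exact le_rfl
    lossS := lossS
    loss_supp := by
      rintro (v | v) hv
      · simp only [lossS, Finset.inl_mem_disjSum, hRS, Set.Finite.mem_toFinset,
          Set.mem_setOf_eq, not_not] at hv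
        simp only [loss, Sum.elim_inl, loss1, if_pos hv]
      · rfl
    lossT := ∑ v ∈ lossS, wt v * loss v
    loss_sum := le_rfl
    D_ord := by
      rintro (v | v) x j m hx h1 h2
      · exact (hdl1 v).1 x j m hx h1 h2
      · exact (hdl2 v).1 x j m hx h1 h2
    D_ord' := by
      rintro (v | v) x j hx h1 h2
      · exact (hdl1 v).2 x j hx h1 h2
      · exact (hdl2 v).2 x j hx h1 h2 }
  refine ⟨Q, ?_, ?_⟩
  rotate_left
  · intro x hx S hS
    have hx0 : x ≠ 0 := by
      rintro rfl
      have := hx X (by simp)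
      exact X_ne_zero this
    have hpx : ∀ v : Q.Pl, Q.pole v x = pl (ord v) x := by
      intro v
      rw [PlaceData.pole_of_ne hx0]
      rfl
    have h0 := deg_pole c1.toChartN c2.toChartN x hx S.toLeft (fun v hv => by
        have h1 := hS (Sum.inl v) (by simpa using hv)
        rw [hpx] at h1
        exact h1) S.toRight (fun v hv => by
        have h1 := hS (Sum.inr v) (by simpa using hv)
        rw [hpx] at h1
        exact h1)
    refine h0.trans (le_of_eq ?_)
    have h1 : ∑ v ∈ S, Q.wt v * Q.pole v x =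
        ∑ v ∈ S.toLeft.disjSum S.toRight, wt v * pl (ord v) x := by
      rw [Finset.toLeft_disjSum_toRight]
      refine Finset.sum_congr rfl fun v _ => ?_
      rw [hpx]
    rw [h1, Finset.sum_disjSum]
    rfl
  show ∑ v ∈ lossS, wt v * loss v ≤ 2 * R0
  have h1 : ∑ v ∈ lossS, wt v * loss v = ∑ v ∈ RS, wt (Sum.inl v) * loss (Sum.inl v) := by
    rw [Finset.sum_disjSum]
    simp
  rw [h1]
  refine le_trans ?_ (mul_le_mul_of_nonneg_left (hR RS) (by norm_num : (0 : ℤ) ≤ 2))
  rw [Finset.mul_sum]
  refine Finset.sum_le_sum fun v hv => ?_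
  have h2 : ev v ≠ 1 := by
    rw [hRS, Set.Finite.mem_toFinset] at hv
    exact hv
  have h3 := hev1 v
  have h4 := pos_poly k _ (c1.g_ne v) (c1.g_nu v)
  simp only [wt, loss, Sum.elim_inl, loss1, if_neg h2]
  have h5 : (ev v : ℤ) ≤ 2 * ((ev v : ℤ) - 1) := by omega
  nlinarith

/-- heights and degrees -/
theorem finrank_le_of_transc {k : Type*} {K : Type w} [Field k] [Field K] [Algebra k K] (t : K)
    (ht : ∀ p : k[X], aeval t p = 0 → p = 0) (x : K) (hx : IsAlgebraic k x) :
    Module.finrank (IntermediateField.adjoin k {x}) K = 0 := by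
  by_contra hcon
  have hfin : Module.Finite (IntermediateField.adjoin k {x}) K :=
    Module.finite_of_finrank_pos (Nat.pos_of_ne_zero hcon)
  have halg1 : Algebra.IsAlgebraic k (IntermediateField.adjoin k {x}) :=
    IntermediateField.isAlgebraic_adjoin_simple hx.isIntegral
  have halg2 : Algebra.IsAlgebraic (IntermediateField.adjoin k {x}) K :=
    Algebra.IsAlgebraic.of_finite _ _
  have halg3 : Algebra.IsAlgebraic k K :=
    Algebra.IsAlgebraic.trans k (IntermediateField.adjoin k {x}) K
  obtain ⟨p, hp0, hpt⟩ := halg3.isAlgebraic t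
  exact hp0 (ht p hpt)

end Pool.Agent.Q256.LH
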