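import Pool.Agent.Q256.LH.A1
import Pool.Agent.W277.UB.Comb

/-!
# The coefficients of a rational function with many values of small height
-/

namespace Pool.Agent.Q256.LH

open Pool.Agent.W277.UB Finset Polynomial

universe u v w

/-- the constant -/
def Cd (d : ℕ) : ℤ := 2 * ((Nat.factorial (2 * d + 2) : ℤ) * ((2 * d + 2) * (d + 1)))

variable {k : Type v} {K : Type u} [Field k] [Field K] [Algebra k K]

lemma proportional (d : ℕ) (p q P₁ Q₁ : K[X]) (hp : p.natDegree ≤ d) (hq : q.natDegree ≤ d)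
    (hco : IsCoprime p q) (hmax : p.natDegree = d ∨ q.natDegree = d) (hP₁ : P₁.natDegree ≤ d)
    (hQ₁ : Q₁.natDegree ≤ d) (z : Fin (2 * d + 1) → K) (hz : Function.Injective z)
    (h : ∀ i, P₁.eval (z i) * q.eval (z i) = p.eval (z i) * Q₁.eval (z i)) :
    ∃ s : K, P₁ = C s * p ∧ Q₁ = C s * q := by
  classical
  have h0 : P₁ * q - p * Q₁ = 0 := by
    by_contra hne
    have h1 : (P₁ * q - p * Q₁).natDegree ≤ 2 * d := by
      refine (natDegree_sub_le _ _).trans (max_le ?_ ?_)
      · refine natDegree_mul_le.trans ?_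
        omega
      · refine natDegree_mul_le.trans ?_
        omega
    have h2 : (Finset.univ.image z) ⊆ (P₁ * q - p * Q₁).roots.toFinset := by
      intro x hx
      rw [Finset.mem_image] at hx
      obtain ⟨i, -, rfl⟩ := hx
      rw [Multiset.mem_toFinset, mem_roots hne, IsRoot.def, eval_sub, eval_mul, eval_mul, h i,
        sub_self]
    have h3 := Finset.card_le_card h2
    rw [Finset.card_image_of_injective _ hz, Finset.card_univ, Fintype.card_fin] at h3
    have h4 := Multiset.toFinset_card_le (P₁ * q - p * Q₁).roots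
    have h5 := card_roots' (P₁ * q - p * Q₁)
    omega
  have h1 : P₁ * q = p * Q₁ := sub_eq_zero.1 h0
  have hqd : q ∣ Q₁ := by
    apply hco.symm.dvd_of_dvd_mul_left
    rw [← h1]
    exact dvd_mul_left q P₁
  have hpd : p ∣ P₁ := by
    apply hco.dvd_of_dvd_mul_right
    rw [h1]
    exact dvd_mul_right p Q₁
  -- the quotient is constant
  have key : ∀ (a b a₁ b₁ : K[X]), a ≠ 0 → a.natDegree = d → a₁.natDegree ≤ d → a ∣ a₁ →
      a₁ * b = a * b₁ → ∃ s : K, a₁ = C s * a ∧ b₁ = C s * b := by
    intro a b a₁ b₁ ha hd ha₁ hdvd hab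
    obtain ⟨e, he⟩ := hdvd
    have he0 : e.natDegree = 0 := by
      by_cases h0 : e = 0
      · rw [h0, natDegree_zero]
      · rw [he, natDegree_mul ha h0] at ha₁
        omega
    obtain ⟨s, rfl⟩ : ∃ s, e = C s := ⟨e.coeff 0, eq_C_of_natDegree_eq_zero he0⟩
    refine ⟨s, by rw [he, mul_comm], ?_⟩
    rw [he, mul_assoc] at hab
    exact (mul_left_cancel₀ ha hab).symm
  rcases hmax with h | h
  · by_cases hp0 : p = 0
    · have hq1 : IsUnit q := by
        rw [hp0, isCoprime_zero_left] at hco
        exact hco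
      have hd0 : d = 0 := by
        rw [← h, hp0, natDegree_zero]
      have hP0 : P₁ = 0 := by
        rw [hp0] at hpd
        exact zero_dvd_iff.1 hpd
      obtain ⟨c, hc, hc'⟩ := Polynomial.isUnit_iff.1 hq1
      have hQc : Q₁ = C (Q₁.coeff 0) := eq_C_of_natDegree_eq_zero (by omega)
      refine ⟨Q₁.coeff 0 / c, ?_, ?_⟩
      · rw [hP0, hp0, mul_zero]
      · rw [← hc', ← C_mul, div_mul_cancel₀ _ hc.ne_zero]
        exact hQc
    · exact key p q P₁ Q₁ hp0 h hP₁ hpd h1
  · by_cases hq0 : q = 0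
    · have hp1 : IsUnit p := by
        rw [hq0, isCoprime_zero_right] at hco
        exact hco
      have hd0 : d = 0 := by
        rw [← h, hq0, natDegree_zero]
      have hQ0 : Q₁ = 0 := by
        rw [hq0] at hqd
        exact zero_dvd_iff.1 hqd
      obtain ⟨c, hc, hc'⟩ := Polynomial.isUnit_iff.1 hp1
      have hPc : P₁ = C (P₁.coeff 0) := eq_C_of_natDegree_eq_zero (by omega)
      refine ⟨P₁.coeff 0 / c, ?_, ?_⟩
      · rw [← hc', ← C_mul, div_mul_cancel₀ _ hc.ne_zero]
        exact hPc
      · rw [hQ0, hq0, mul_zero]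
    · obtain ⟨s, hs1, hs2⟩ := key q p Q₁ P₁ hq0 h hQ₁ hqd (by rw [mul_comm, ← h1, mul_comm])
      exact ⟨s, hs2, hs1⟩

/-- the polynomial with given coefficients -/
noncomputable def pol (d : ℕ) (c : Fin (d + 1) → K) : K[X] := ∑ j : Fin (d + 1), C (c j) * X ^ (j : ℕ)

lemma pol_deg (d : ℕ) (c : Fin (d + 1) → K) : (pol d c).natDegree ≤ d := by
  refine natDegree_sum_le_of_forall_le _ _ fun j _ => ?_
  refine (natDegree_C_mul_X_pow_le _ _).trans ?_
  omega

lemma pol_coeff (d : ℕ) (c : Fin (d + 1) → K) (j : Fin (d + 1)) : (pol d c).coeff j = c j := by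
  unfold pol
  rw [finsetSum_coeff]
  simp only [coeff_C_mul_X_pow]
  rw [Finset.sum_eq_single j]
  · simp
  · intro b _ hb
    rw [if_neg]
    intro h
    exact hb (Fin.ext h.symm)
  · simp

lemma pol_eval (d : ℕ) (c : Fin (d + 1) → K) (z : K) :
    (pol d c).eval z = ∑ j : Fin (d + 1), c j * z ^ (j : ℕ) := by
  unfold pol
  rw [eval_finsetSum]
  simp

lemma eval_eq (d : ℕ) (p : K[X]) (hp : p.natDegree ≤ d) (z : K) :
    p.eval z = ∑ j : Fin (d + 1), p.coeff j * z ^ (j : ℕ) := by
  rw [eval_eq_sum_range' (n := d + 1) (by omega), ← Fin.sum_univ_eq_sum_range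
    (fun j => p.coeff j * z ^ j)]

/-- the index type -/
abbrev II (d : ℕ) := Fin (d + 1) ⊕ Fin (d + 1)

/-- **The coefficients have small height.** -/
theorem coeff_bound (Q : PlaceData.{w} k K) (d : ℕ) (p q : K[X]) (hp : p.natDegree ≤ d)
    (hq : q.natDegree ≤ d) (hco : IsCoprime p q) (hmax : p.natDegree = d ∨ q.natDegree = d)
    (T : Finset K) (hT : 2 * d + 1 ≤ T.card) (hq0 : ∀ z ∈ T, q.eval z ≠ 0) (B : ℤ) (hB0 : 0 ≤ B)
    (hB : ∀ z ∈ T, HB Q z B ∧ HB Q (p.eval z / q.eval z) B) :
    ∃ c : K, c ≠ 0 ∧ ∀ j, HB Q (c * p.coeff j) (Cd d * B) ∧ HB Q (c * q.coeff j) (Cd d * B) := by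
  classical
  obtain ⟨z, hzinj, hzT⟩ := exists_inj (2 * d + 1) T hT
  have hcard : Fintype.card (II d) = 2 * d + 2 := by
    rw [Fintype.card_sum, Fintype.card_fin]
    ring
  let σ : (II d) ≃ Fin (2 * d + 2) := Fintype.equivFinOfCardEq hcard
  set cv : (II d) → K := Sum.elim (fun a => p.coeff a) (fun b => q.coeff b) with hcv
  -- a nonzero coefficient
  obtain ⟨c0, hc0⟩ : ∃ c0, cv c0 ≠ 0 := by
    by_contra hcon
    push Not at hcon
    have h1 : ∀ j : Fin (d + 1), p.coeff j = 0 := fun j => hcon (Sum.inl j)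
    have h2 : ∀ j : Fin (d + 1), q.coeff j = 0 := fun j => hcon (Sum.inr j)
    have h3 : ∀ (f : K[X]), f.natDegree ≤ d → (∀ j : Fin (d + 1), f.coeff j = 0) → f = 0 := by
      intro f hf h
      ext j
      by_cases hj : j < d + 1
      · rw [coeff_zero]
        exact h ⟨j, hj⟩
      · rw [coeff_zero]
        exact coeff_eq_zero_of_natDegree_lt (by omega)
    rw [h3 p hp h1, h3 q hq h2] at hco
    exact not_isCoprime_zero_zero hco
  set y : Fin (2 * d + 1) → K := fun i => p.eval (z i) / q.eval (z i) with hy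
  set M : Matrix (II d) (II d) K := fun i j => if h : (σ i).val < 2 * d + 1 then
    Sum.elim (fun a : Fin (d + 1) => z ⟨σ i, h⟩ ^ (a : ℕ))
      (fun b : Fin (d + 1) => -(y ⟨σ i, h⟩ * z ⟨σ i, h⟩ ^ (b : ℕ))) j
    else (if j = c0 then 1 else 0) with hM
  set i0 : (II d) := σ.symm ⟨2 * d + 1, by omega⟩ with hi0
  have hσ0 : (σ i0).val = 2 * d + 1 := by
    rw [hi0, Equiv.apply_symm_apply]
  have hlt : ∀ i, i ≠ i0 → (σ i).val < 2 * d + 1 := by
    intro i hi
    by_contra hcon
    apply hi
    apply σ.injective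
    apply Fin.ext
    rw [hσ0]
    have := (σ i).isLt
    omega
  have hmul : ∀ (w : (II d) → K) (i : (II d)) (h : (σ i).val < 2 * d + 1), M.mulVec w i =
      (pol d fun a => w (Sum.inl a)).eval (z ⟨σ i, h⟩) -
        y ⟨σ i, h⟩ * (pol d fun b => w (Sum.inr b)).eval (z ⟨σ i, h⟩) := by
    intro w i h
    rw [Matrix.mulVec, dotProduct, Fintype.sum_sum_type, pol_eval, pol_eval, Finset.mul_sum,
      sub_eq_add_neg, ← Finset.sum_neg_distrib]
    congr 1
    · refine Finset.sum_congr rfl fun a _ => ?_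
      simp only [hM, dif_pos h, Sum.elim_inl]
      ring
    · refine Finset.sum_congr rfl fun a _ => ?_
      simp only [hM, dif_pos h, Sum.elim_inr]
      ring
  have hmul0 : ∀ (w : (II d) → K), M.mulVec w i0 = w c0 := by
    intro w
    rw [Matrix.mulVec, dotProduct]
    have h1 : ∀ j, M i0 j = if j = c0 then 1 else 0 := by
      intro j
      simp only [hM]
      rw [dif_neg (by omega)]
    simp only [h1]
    rw [Finset.sum_eq_single c0]
    · simp
    · intro b _ hb
      simp [hb]
    · simp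
  have hpolp : (pol d fun a => cv (Sum.inl a)) = p := by
    ext j
    by_cases hj : j < d + 1
    · have := pol_coeff d (fun a => cv (Sum.inl a)) ⟨j, hj⟩
      exact this
    · rw [coeff_eq_zero_of_natDegree_lt (by have := pol_deg d fun a => cv (Sum.inl a); omega),
        coeff_eq_zero_of_natDegree_lt (by omega)]
  have hpolq : (pol d fun a => cv (Sum.inr a)) = q := by
    ext j
    by_cases hj : j < d + 1
    · have := pol_coeff d (fun a => cv (Sum.inr a)) ⟨j, hj⟩
      exact this
    · rw [coeff_eq_zero_of_natDegree_lt (by have := pol_deg d fun a => cv (Sum.inr a); omega),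
        coeff_eq_zero_of_natDegree_lt (by omega)]
  have hMcv : M.mulVec cv = cv c0 • Pi.single i0 (1 : K) := by
    funext i
    by_cases hi : i = i0
    · rw [hi, hmul0]
      simp
    · rw [hmul cv i (hlt i hi), hpolp, hpolq]
      have h1 : (Pi.single i0 (1 : K) : (II d) → K) i = 0 := Pi.single_eq_of_ne hi 1
      rw [Pi.smul_apply, h1, smul_zero]
      simp only [hy]
      rw [div_mul_cancel₀ _ (hq0 _ (hzT _)), sub_self]
  have hdet : M.det ≠ 0 := by
    intro hdet0
    obtain ⟨w, hw0, hw⟩ := Matrix.exists_mulVec_eq_zero_iff.2 hdet0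
    apply hw0
    set P₁ := pol d fun a => w (Sum.inl a) with hP₁
    set Q₁ := pol d fun a => w (Sum.inr a) with hQ₁
    obtain ⟨s, hs1, hs2⟩ := proportional d p q P₁ Q₁ hp hq hco hmax (pol_deg _ _) (pol_deg _ _) z
      hzinj (by
        intro i
        set i' : (II d) := σ.symm ⟨i, by omega⟩ with hi'
        have hσ : (σ i').val = i := by rw [hi', Equiv.apply_symm_apply]
        have hlt' : (σ i').val < 2 * d + 1 := by rw [hσ]; exact i.isLt
        have hfin : (⟨(σ i').val, hlt'⟩ : Fin (2 * d + 1)) = i := Fin.ext hσ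
        have h1 := congrFun hw i'
        rw [hmul w i' hlt', hfin, Pi.zero_apply] at h1
        have h2 : P₁.eval (z i) = y i * Q₁.eval (z i) := sub_eq_zero.1 h1
        rw [h2]
        simp only [hy]
        have h3 := hq0 _ (hzT i)
        field_simp)
    have hws : ∀ i, w i = s * cv i := by
      rintro (a | b)
      · have h1 := congrArg (fun f => f.coeff (a : ℕ)) hs1
        simp only [coeff_C_mul] at h1
        rw [hP₁, pol_coeff] at h1
        exact h1
      · have h1 := congrArg (fun f => f.coeff (b : ℕ)) hs2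
        simp only [coeff_C_mul] at h1
        rw [hQ₁, pol_coeff] at h1
        exact h1
    have h2 := congrFun hw i0
    rw [hmul0, hws c0, Pi.zero_apply] at h2
    have hs : s = 0 := (mul_eq_zero.1 h2).resolve_right hc0
    funext i
    rw [hws i, hs, zero_mul, Pi.zero_apply]
  -- Cramer
  have hcram : M.det • cv = cv c0 • M.cramer (Pi.single i0 1) := by
    have h1 : M.mulVec (M.det • cv - cv c0 • M.cramer (Pi.single i0 1)) = 0 := by
      rw [Matrix.mulVec_sub, Matrix.mulVec_smul, Matrix.mulVec_smul, Matrix.mulVec_cramer, hMcv,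
        smul_smul, smul_smul, mul_comm, sub_self]
    by_contra hne
    exact hdet (Matrix.exists_mulVec_eq_zero_iff.1 ⟨_, sub_ne_zero.2 hne, h1⟩)
  have hent : ∀ i j, HB Q (M i j) ((d + 1) * B) := by
    intro i j
    simp only [hM]
    split_ifs with h h'
    · have hb := hB _ (hzT ⟨σ i, h⟩)
      rcases j with a | b
      · simp only [Sum.elim_inl]
        refine (hb.1.pow a).mono ?_
        have h1 : ((a : ℕ) : ℤ) ≤ d + 1 := by
          have := a.isLt
          omega
        exact mul_le_mul_of_nonneg_right h1 hB0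
      · simp only [Sum.elim_inr]
        refine ((hb.2.mul (hb.1.pow b)).neg).mono ?_
        have h1 : ((b : ℕ) : ℤ) ≤ d := by
          have := b.isLt
          omega
        have := mul_le_mul_of_nonneg_right h1 hB0
        linarith
    · exact HB.one.mono (by positivity)
    · exact HB.zero.mono (by positivity)
  set D1 : ℤ := (Nat.factorial (2 * d + 2) : ℤ) * ((2 * d + 2) * ((d + 1) * B)) with hD1
  have hfact : (Fintype.card (Equiv.Perm (II d)) : ℤ) = (Nat.factorial (2 * d + 2) : ℤ) := by
    rw [Fintype.card_perm, hcard]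
  have hcardz : (Fintype.card (II d) : ℤ) = 2 * d + 2 := by
    rw [hcard]
    push_cast
    ring
  have hdetB : HB Q M.det D1 := by
    have := HB.det M hent
    rw [hfact, hcardz] at this
    exact this
  have hcrB : ∀ j, HB Q (M.cramer (Pi.single i0 1) j) D1 := by
    intro j
    rw [Matrix.cramer_apply]
    have := HB.det (Q := Q) (M.updateCol j (Pi.single i0 1)) (B := (d + 1) * B) (by
      intro i j'
      rw [Matrix.updateCol_apply]
      split_ifs with h
      · by_cases hi : i = i0
        · rw [hi, Pi.single_eq_same]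
          exact HB.one.mono (by positivity)
        · rw [Pi.single_eq_of_ne hi]
          exact HB.zero.mono (by positivity)
      · exact hent i j')
    rw [hfact, hcardz] at this
    exact this
  have hCd : Cd d * B = D1 + D1 := by
    rw [hD1, Cd]
    ring
  have hD10 : 0 ≤ D1 := hdetB.nonneg
  have hall : ∀ i, HB Q ((cv c0)⁻¹ * cv i) (Cd d * B) := by
    intro i
    have h1 := congrFun hcram i
    rw [Pi.smul_apply, Pi.smul_apply, smul_eq_mul, smul_eq_mul] at h1
    have h2 : (cv c0)⁻¹ * cv i = M.cramer (Pi.single i0 1) i / M.det := by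
      field_simp
      linear_combination h1
    rw [h2, hCd]
    exact (hcrB i).div hdetB
  refine ⟨(cv c0)⁻¹, inv_ne_zero hc0, fun j => ?_⟩
  by_cases hj : j < d + 1
  · exact ⟨hall (Sum.inl ⟨j, hj⟩), hall (Sum.inr ⟨j, hj⟩)⟩
  · rw [coeff_eq_zero_of_natDegree_lt (by omega), coeff_eq_zero_of_natDegree_lt (by omega),
      mul_zero]
    have h1 : (0 : ℤ) ≤ Cd d * B := by
      rw [hCd]
      linarith
    exact ⟨HB.zero.mono h1, HB.zero.mono h1⟩

end Pool.Agent.Q256.LH
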