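import Pool.Agent.Q256.LH.C2

/-!
# The normal form with small coefficients
-/

set_option autoImplicit false

namespace Pool.Agent.Q256.LH

open Pool.Agent.H951R3.PB Pool.Agent.TH450.PC Pool.Agent.TH450.FG Pool.Agent.TH450.FH Finset
open Pool.Agent.W277.UB
open Pool.Agent.W277.UH hiding wd

universe u v w

lemma coeff_hom {K : Type u} [Field K] {p : MvPolynomial (Fin 2) K} {d : ℕ}
    (hp : p.IsHomogeneous d) (m : Fin 2 →₀ ℕ) :
    p.coeff m = (dh p).coeff (m 0) ∨ p.coeff m = 0 := by
  have h1 := E1.homog_dh hp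
  have h2 : p.coeff m = ((dh p).homogenize d).coeff m := by rw [h1]
  rw [h2, Polynomial.coeff_homogenize]
  split_ifs
  · left; rfl
  · right; rfl

lemma pre_ev {K : Type u} [Field K] {d : ℕ} {f : Fin 2 → MvPolynomial (Fin 2) K}
    (hf : ∀ i, (f i).IsHomogeneous d) {x : Fin 2 → K} (h : Pre f x) : Pre f (ev f x) := by
  obtain ⟨m, n, hmn, c, hc, h⟩ := h
  refine ⟨m, n, hmn, c ^ d, pow_ne_zero _ hc, ?_⟩
  rw [← Function.iterate_succ_apply, ← Function.iterate_succ_apply, Function.iterate_succ_apply',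
    Function.iterate_succ_apply', h, ev_smul hf]

lemma coo_div {K : Type u} [Field K] {a b : Fin 2 → K} (hab : wd a b ≠ 0) (y : Fin 2 → K) :
    coo a b y 0 / coo a b y 1 = wd y b / wd a y := by
  show wd y b / wd a b / (wd a y / wd a b) = _
  rw [div_div_div_cancel_right₀ hab]

lemma wd_smul_left {K : Type u} [Field K] (c : K) (x y : Fin 2 → K) :
    wd (c • x) y = c * wd x y := by
  simp only [wd, Pi.smul_apply, smul_eq_mul]
  ring

lemma wd_smul_right {K : Type u} [Field K] (c : K) (x y : Fin 2 → K) :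
    wd x (c • y) = c * wd x y := by
  simp only [wd, Pi.smul_apply, smul_eq_mul]
  ring

lemma wd_anti {K : Type u} [Field K] (x y : Fin 2 → K) : wd x y = -wd y x := by
  simp only [wd]
  ring

/-- **The normal form.** -/
theorem normal_form (d : ℕ) (hd : 2 ≤ d) : ∃ (N₂ : ℕ) (C : ℕ), ∀ (k : Type v) (K : Type u)
    [Field k] [CharZero k] [Field K] [Algebra k K] (Q : PlaceData.{w} k K)
    (f : Fin 2 → MvPolynomial (Fin 2) K), (∀ i, (f i).IsHomogeneous d) → rs f d ≠ 0 →
    (¬ ∃ (A : Matrix (Fin 2) (Fin 2) (AlgebraicClosure K)) (g : Fin 2 → MvPolynomial (Fin 2) k)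
      (c : AlgebraicClosure K), A.det ≠ 0 ∧ (∀ i, (g i).IsHomogeneous d) ∧ c ≠ 0 ∧
      ∀ v : Fin 2 → AlgebraicClosure K, ev (fL K f) (A.mulVec v) =
        c • A.mulVec (ev (fun i => (g i).map (algebraMap k (AlgebraicClosure K))) v)) →
    ∀ X : Finset (Fin 2 → K), (∀ x ∈ X, x ≠ 0 ∧ Pre f x) →
      (∀ x ∈ X, ∀ y ∈ X, x ≠ y → wd x y ≠ 0) → N₂ ≤ X.card →
    ∃ (a b : Fin 2 → K) (g : Fin 2 → MvPolynomial (Fin 2) K) (c : K), wd a b ≠ 0 ∧ c ≠ 0 ∧
      (∀ i, (g i).IsHomogeneous d) ∧ (∀ x, ev g x = c • coo a b (ev f (emb a b x))) ∧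
      (∀ i m, HB Q ((g i).coeff m) (C * Q.lossT)) ∧
      ∀ x, x ≠ 0 → Pre f x → HB Q (coo a b x 0 / coo a b x 1) (C * Q.lossT) := by
  obtain ⟨N₁, H⟩ := cross_vec.{u, v, w} d hd
  refine ⟨N₁ + 3 * d + 4, (Cd d).toNat * (384 * d * (d + 1)) + 384 * d * (d + 1), ?_⟩
  intro k K _ _ _ _ Q f hf h0 hiso X hX hXX hN
  classical
  have hCd0 : 0 ≤ Cd d := by
    unfold Cd
    positivity
  have hCdN : (((Cd d).toNat * (384 * d * (d + 1)) + 384 * d * (d + 1) : ℕ) : ℤ) =
      Cd d * (384 * d * (d + 1)) + 384 * d * (d + 1) := by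
    push_cast
    rw [Int.toNat_of_nonneg hCd0]
  rw [hCdN]
  have hLT : 0 ≤ Q.lossT := lossT_nonneg
  set B : ℤ := 384 * d * (d + 1) * Q.lossT with hB
  have hB0 : 0 ≤ B := by positivity
  have hBC : B ≤ (Cd d * (384 * d * (d + 1)) + 384 * d * (d + 1)) * Q.lossT := by
    have h1 : 0 ≤ Cd d * B := mul_nonneg hCd0 hB0
    have h2 : (Cd d * (384 * d * (d + 1)) + 384 * d * (d + 1)) * Q.lossT = Cd d * B + B := by
      rw [hB]
      ring
    rw [h2]
    linarith
  have hCB : Cd d * B ≤ (Cd d * (384 * d * (d + 1)) + 384 * d * (d + 1)) * Q.lossT := by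
    have h2 : (Cd d * (384 * d * (d + 1)) + 384 * d * (d + 1)) * Q.lossT = Cd d * B + B := by
      rw [hB]
      ring
    rw [h2]
    linarith
  have hcr := H k K Q f hf h0 hiso X hX hXX (by omega)
  have hz : ∀ x : Fin 2 → K, ev f x = 0 → x = 0 := by
    intro x hx
    by_contra hne
    apply F4_vL_ne hne
    apply (rs_ne_zero_iff (by omega) (f := fL K f) fun i => (hf i).map _).1 (F4_rs_ne h0)
    rw [F4_ev, hx]
    funext i
    simp [vL]
  -- three points
  obtain ⟨a0, ha0, b0, hb0, c0, hc0, hab, hac, hbc⟩ := Finset.two_lt_card.1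
    (show 2 < X.card by omega)
  have wab := hXX a0 ha0 b0 hb0 hab
  have wac := hXX a0 ha0 c0 hc0 hac
  have wcb := hXX c0 hc0 b0 hb0 hbc.symm
  have wca : wd c0 a0 ≠ 0 := by
    rw [wd_anti]
    exact neg_ne_zero.2 wac
  set al := wd c0 b0 / wd a0 b0 with hal
  set be := wd a0 c0 / wd a0 b0 with hbe
  have hal0 : al ≠ 0 := div_ne_zero wcb wab
  have hbe0 : be ≠ 0 := div_ne_zero wac wab
  set a := al • a0 with ha
  set b := be • b0 with hb
  have hwab : wd a b ≠ 0 := by
    rw [ha, hb, wd_smul_left, wd_smul_right]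
    exact mul_ne_zero hal0 (mul_ne_zero hbe0 wab)
  have hpt : ∀ x, x ≠ 0 → Pre f x → HB Q (coo a b x 0 / coo a b x 1) B := by
    intro x hx hpx
    rw [coo_div hwab]
    by_cases h1 : wd x b0 = 0
    · rw [hb, wd_smul_right, h1, mul_zero, zero_div]
      exact HB.zero.mono hB0
    by_cases h2 : wd x a0 = 0
    · rw [ha, wd_smul_left, wd_anti a0 x, h2, neg_zero, mul_zero, div_zero]
      exact HB.zero.mono hB0
    have h3 := hcr x b0 c0 a0 ⟨hx, hpx⟩ (hX b0 hb0) (hX c0 hc0) (hX a0 ha0) h1 wca h2 wcb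
    have h4 : wd x b / wd a x = wd x b0 * wd c0 a0 / (wd x a0 * wd c0 b0) := by
      rw [ha, hb, wd_smul_left, wd_smul_right, wd_anti a0 x, hal, hbe, wd_anti a0 c0]
      field_simp
    rw [h4]
    exact h3
  -- the conjugate
  obtain ⟨h, hh, hhrs, hhev, -⟩ := cjK (by omega) hf h0 hwab
  set p := dh (h 0) with hp
  set q := dh (h 1) with hq
  have hco : IsCoprime p q := coprime_of_rs (by omega) hh hhrs
  have hpd : p.natDegree ≤ d := E1.natDegree_dh_le (hh 0)
  have hqd : q.natDegree ≤ d := E1.natDegree_dh_le (hh 1)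
  have hzh : ∀ x : Fin 2 → K, ev h x = 0 → x = 0 := by
    intro x hx
    by_contra hne
    apply F4_vL_ne hne
    apply (rs_ne_zero_iff (by omega) (f := fL K h) fun i => (hh i).map _).1 (F4_rs_ne hhrs)
    rw [F4_ev, hx]
    funext i
    simp [vL]
  have hmax : p.natDegree = d ∨ q.natDegree = d := by
    by_contra hcon
    push Not at hcon
    have h4 : ev h ![1, 0] = 0 := by
      funext i
      have h5 := E1.eval_of_eq (hh i) ![1, 0] (by simp)
      show MvPolynomial.eval ![1, 0] (h i) = 0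
      rw [h5]
      fin_cases i
      · show p.coeff d * _ = 0
        rw [Polynomial.coeff_eq_zero_of_natDegree_lt (lt_of_le_of_ne hpd hcon.1), zero_mul]
      · show q.coeff d * _ = 0
        rw [Polynomial.coeff_eq_zero_of_natDegree_lt (lt_of_le_of_ne hqd hcon.2), zero_mul]
    have h6 := congrFun (hzh _ h4) 0
    simp at h6
  have hq0 : q ≠ 0 := by
    intro h1
    rw [h1, isCoprime_zero_right] at hco
    have h2 := Polynomial.natDegree_eq_zero_of_isUnit hco
    rcases hmax with h3 | h3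
    · omega
    · rw [h1, Polynomial.natDegree_zero] at h3
      omega
  -- the points
  set T0 : Finset K := (X.erase a0).image fun x => coo a b x 0 / coo a b x 1 with hT0
  have hne1 : ∀ x ∈ X.erase a0, wd a x ≠ 0 := by
    intro x hx
    rw [ha, wd_smul_left]
    exact mul_ne_zero hal0 (hXX a0 ha0 x (Finset.mem_of_mem_erase hx)
      (Finset.ne_of_mem_erase hx).symm)
  have hco1 : ∀ x ∈ X.erase a0, coo a b x 1 ≠ 0 := fun x hx => div_ne_zero (hne1 x hx) hwab
  have hT0c : (X.erase a0).card = T0.card := by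
    rw [hT0, Finset.card_image_of_injOn]
    intro x hx y hy hxy
    by_contra hne
    have hx' := Finset.mem_coe.1 hx
    have hy' := Finset.mem_coe.1 hy
    have h1 := hXX x (Finset.mem_of_mem_erase hx') y (Finset.mem_of_mem_erase hy') hne
    have h2 := hne1 x hx'
    have h3 := hne1 y hy'
    have h4 : coo a b x 0 / coo a b x 1 = coo a b y 0 / coo a b y 1 := hxy
    rw [coo_div hwab, coo_div hwab, div_eq_div_iff h2 h3] at h4
    have h5 : wd a b * wd x y = 0 := by
      simp only [wd] at h4 ⊢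
      linear_combination h4
    exact mul_ne_zero hwab h1 h5
  set T : Finset K := T0.filter fun z => q.eval z ≠ 0 with hT
  have hTc : 2 * d + 1 ≤ T.card := by
    have h1 : (T0.filter fun z => ¬ q.eval z ≠ 0).card ≤ d := by
      have h2 : (T0.filter fun z => ¬ q.eval z ≠ 0) ⊆ q.roots.toFinset := by
        intro z hz
        rw [Finset.mem_filter] at hz
        rw [Multiset.mem_toFinset, Polynomial.mem_roots hq0]
        exact not_not.1 hz.2
      have h3 := Finset.card_le_card h2
      have h4 := Multiset.toFinset_card_le q.roots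
      have h5 := Polynomial.card_roots' q
      omega
    have h2 := Finset.card_filter_add_card_filter_not (s := T0) (fun z => q.eval z ≠ 0)
    have h3 := Finset.card_erase_of_mem ha0
    rw [← hT] at h2
    omega
  obtain ⟨c, hc, hcoef⟩ := coeff_bound Q d p q hpd hqd hco hmax T hTc (by
    intro z hz
    exact (Finset.mem_filter.1 hz).2) B hB0 (by
    intro z hzT
    obtain ⟨hz1, hz2⟩ := Finset.mem_filter.1 hzT
    rw [hT0, Finset.mem_image] at hz1
    obtain ⟨x, hx, hxz⟩ := hz1
    have hx1 := hX x (Finset.mem_of_mem_erase hx)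
    have hc1 := hco1 x hx
    have e1 : coo a b x = coo a b x 1 • ![z, 1] := by
      funext i
      fin_cases i
      · show coo a b x 0 = coo a b x 1 * z
        rw [← hxz]
        field_simp
      · show coo a b x 1 = coo a b x 1 * 1
        rw [mul_one]
    have e2 : ev h (coo a b x) = coo a b (ev f x) := by
      rw [hhev, cj, D2.emb_coo hwab]
    have e3 : (coo a b x 1) ^ d • ev h ![z, 1] = coo a b (ev f x) := by
      rw [← e2]
      conv_rhs => rw [e1]
      rw [ev_smul hh]
    have e4 : ∀ i, (coo a b x 1) ^ d * (dh (h i)).eval z = coo a b (ev f x) i := by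
      intro i
      have := congrFun e3 i
      rw [Pi.smul_apply, ev_affine hh] at this
      exact this
    have e5 : p.eval z / q.eval z = coo a b (ev f x) 0 / coo a b (ev f x) 1 := by
      rw [← e4 0, ← e4 1, mul_div_mul_left _ _ (pow_ne_zero _ hc1)]
    refine ⟨?_, ?_⟩
    · rw [← hxz]
      exact hpt x hx1.1 hx1.2
    · rw [e5]
      refine hpt _ ?_ (pre_ev hf hx1.2)
      intro h1
      exact hx1.1 (hz _ h1))
  refine ⟨a, b, fun i => MvPolynomial.C c * h i, c, hwab, hc, ?_, ?_, ?_, ?_⟩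
  · intro i
    have h1 := (MvPolynomial.isHomogeneous_C (Fin 2) c).mul (hh i)
    rwa [zero_add] at h1
  · intro x
    funext i
    have h1 := congrFun (congrFun hhev x) i
    show MvPolynomial.eval x (MvPolynomial.C c * h i) = _
    rw [map_mul, MvPolynomial.eval_C]
    have h2 : MvPolynomial.eval x (h i) = cj a b (ev f) x i := h1
    rw [h2]
    rfl
  · intro i m
    rw [MvPolynomial.coeff_C_mul]
    rcases coeff_hom (hh i) m with h1 | h1
    · rw [h1]
      fin_cases i
      · exact (hcoef _).1.mono hCB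
      · exact (hcoef _).2.mono hCB
    · rw [h1, mul_zero]
      exact HB.zero.mono (hB0.trans hBC)
  · intro x hx hpx
    exact (hpt x hx hpx).mono hBC

end Pool.Agent.Q256.LH
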