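import Pool.Agent.Q256.LH.B3
import Pool.Agent.Q256.LH.C3
import Pool.Agent.TH450.FH.Main2

/-!
# More than `N(d)` preperiodic points force small height
-/

set_option autoImplicit false
set_option maxHeartbeats 400000

namespace Pool.Agent.Q256.LH

open Pool.Agent.H951R3.PB Pool.Agent.TH450.PC Pool.Agent.TH450.FG Pool.Agent.TH450.FH Finset
open Pool.Agent.W277.UB Pool.Agent.W277.UD

universe u v

/-- the height -/
noncomputable def height (k : Type v) {K : Type u} [Field k] [Field K] [Algebra k K] (c : K) : ℕ :=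
  Module.finrank (IntermediateField.adjoin k {c}) K

lemma pre_conj {K : Type u} [Field K] {d : ℕ} {f g : Fin 2 → MvPolynomial (Fin 2) K}
    (hf : ∀ i, (f i).IsHomogeneous d) {a b : Fin 2 → K} (hab : wd a b ≠ 0) {c : K} (hc : c ≠ 0)
    (h : ∀ x, ev g x = c • coo a b (ev f (emb a b x))) {x : Fin 2 → K} (hx : Pre g x) :
    Pre f (emb a b x) := by
  have h1 : ∀ y, ev f (emb a b y) = c⁻¹ • emb a b (ev g y) := by
    intro y
    rw [h, D2.emb_smul, D2.emb_coo hab, smul_smul, inv_mul_cancel₀ hc, one_smul]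
  have h2 : ∀ n : ℕ, ∃ e : K, e ≠ 0 ∧ (ev f)^[n] (emb a b x) = e • emb a b ((ev g)^[n] x) := by
    intro n
    induction n with
    | zero => exact ⟨1, one_ne_zero, by simp⟩
    | succ n ih =>
      obtain ⟨e, he, h3⟩ := ih
      refine ⟨e ^ d * c⁻¹, mul_ne_zero (pow_ne_zero _ he) (inv_ne_zero hc), ?_⟩
      rw [Function.iterate_succ_apply', h3, ev_smul hf, h1, smul_smul,
        Function.iterate_succ_apply']
  obtain ⟨m, n, hmn, c', hc', h3⟩ := hx
  obtain ⟨e, he, h4⟩ := h2 n
  obtain ⟨e', he', h5⟩ := h2 m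
  refine ⟨m, n, hmn, e * c' * e'⁻¹, mul_ne_zero (mul_ne_zero he hc') (inv_ne_zero he'), ?_⟩
  rw [h4, h5, h3, D2.emb_smul, smul_smul, smul_smul]
  congr 1
  field_simp

theorem main_LH (d : ℕ) (hd : 2 ≤ d) : ∃ N : ℕ,
    ∀ (k : Type v) (K : Type u) [Field k] [CharZero k] [Field K] [Algebra k K]
      [Algebra (RatFunc k) K] [IsScalarTower k (RatFunc k) K] [FiniteDimensional (RatFunc k) K]
      (n : ℕ) (b : Module.Basis (Fin n) (RatFunc k) K),
      (∀ i, ((algebraMap (RatFunc k) K).comp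
        (algebraMap (Polynomial k) (RatFunc k))).IsIntegralElem (b i)) →
    ∃ δ : Polynomial k, algebraMap (Polynomial k) (RatFunc k) δ = Algebra.discr (RatFunc k) b ∧
    ∀ f : Fin 2 → MvPolynomial (Fin 2) K, (∀ i, (f i).IsHomogeneous d) →
      (∀ x : Fin 2 → AlgebraicClosure K, (∀ i, MvPolynomial.aeval x (f i) = 0) → x = 0) →
      ¬ Isotrivial k d f →
    ∀ X : Finset (Fin 2 → K), (∀ x ∈ X, x ≠ 0 ∧ Pre f x) →
      (∀ x ∈ X, ∀ y ∈ X, ∀ c : K, x = c • y → x = y) → N < X.card →
      (∀ x y z t : Fin 2 → K, x ≠ 0 ∧ Pre f x → y ≠ 0 ∧ Pre f y → z ≠ 0 ∧ Pre f z →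
        t ≠ 0 ∧ Pre f t → wd x y ≠ 0 → wd z t ≠ 0 → wd x t ≠ 0 → wd z y ≠ 0 →
        height k (wd x y * wd z t / (wd x t * wd z y)) ≤ 768 * d * (d + 1) * δ.natDegree) ∧
      ∃ (A : Matrix (Fin 2) (Fin 2) K) (g : Fin 2 → MvPolynomial (Fin 2) K) (c : K),
        A.det ≠ 0 ∧ c ≠ 0 ∧ (∀ i, (g i).IsHomogeneous d) ∧
        (∀ x : Fin 2 → K, ev f (A.mulVec x) = c • A.mulVec (ev g x)) ∧
        (∀ i m, height k ((g i).coeff m) ≤ N * δ.natDegree) ∧
        ∀ x : Fin 2 → K, x ≠ 0 → Pre g x → height k (x 0 / x 1) ≤ N * δ.natDegree := by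
  obtain ⟨N₁, H1⟩ := cross_vec.{u, u, u} d hd
  obtain ⟨N₂, C, H2⟩ := normal_form.{u, u, u} d hd
  refine ⟨N₁ + N₂ + 2 * C, ?_⟩
  intro k K _ _ _ _ _ _ _ n b hb
  classical
  obtain ⟨D0, hD0, hDker⟩ := exists_deriv k K
  obtain ⟨c1⟩ := exists_chartX1 k K D0 hD0
  obtain ⟨c2⟩ := exists_chartX2 k K D0 hD0
  choose pr hpr hprpos using fun v => exists_prime_v c1 v
  set ram : c1.Pl → ℕ := fun v => (c1.ord v (algebraMap (RatFunc k) K
    (algebraMap (Polynomial k) (RatFunc k) (pr v)))).toNat with hev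
  have hev' : ∀ v, c1.ord v (algebraMap (RatFunc k) K
      (algebraMap (Polynomial k) (RatFunc k) (pr v))) = ram v := by
    intro v
    rw [hev]
    simp only
    rw [Int.toNat_of_nonneg (hprpos v).le]
  have hev1 : ∀ v, 1 ≤ ram v := by
    intro v
    have h1 := hprpos v
    rw [hev' v] at h1
    exact_mod_cast h1
  have hφ : ∀ v (r : Polynomial k), GG (c1.ord v) 0 (((algebraMap (RatFunc k) K).comp
      (algebraMap (Polynomial k) (RatFunc k))) r) := by
    intro v r h
    refine c1.ord_R v r ?_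
    rintro rfl
    simp at h
  obtain ⟨δ, hδ, hT⟩ := disc_bound c1 pr ram hpr hev1 hev' b
    (fun i v => GG_of_integral (c1.val v) _ (hφ v) (b i) (hb i))
  obtain ⟨Q, hQ, hQdeg⟩ := exists_pdH k K D0 hD0 hDker c1 c2 pr ram hpr hev1 hev' _ hT
  refine ⟨δ, hδ, ?_⟩
  intro f hf hz hiso X hX hXc hN
  have h0 : rs f d ≠ 0 := rs_ne_of_noZero (by omega) hf hz
  have hLT : 0 ≤ Q.lossT := lossT_nonneg
  -- heights
  have htr : ∀ p : Polynomial k, Polynomial.aeval (algebraMap (RatFunc k) K
      (algebraMap (Polynomial k) (RatFunc k) Polynomial.X)) p = 0 → p = 0 :=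
    fun p hp => Pool.Agent.Y362.CH.t_tr p hp
  have hht : ∀ (c : K) (B : ℤ), HB Q c B → (height k c : ℤ) ≤ B := by
    intro c B hB
    unfold height
    by_cases hc : IsAlgebraic k c
    · rw [finrank_le_of_transc _ htr c hc]
      exact hB.nonneg
    · have hc' : ∀ p : Polynomial k, Polynomial.aeval c p = 0 → p = 0 := by
        intro p hp
        by_contra hp0
        exact hc ⟨p, hp0, hp⟩
      have hc0 : c ≠ 0 := by
        rintro rfl
        exact hc isAlgebraic_zero
      refine (hQdeg c hc' (Q.fin c hc0).toFinset ?_).trans (hB _)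
      intro v hv
      have h1 : Q.ord v c = 0 := by
        by_contra h
        exact hv (by simp [h])
      rw [PlaceData.pole_of_ne hc0, h1]
      rfl
  have hiso' : ¬ ∃ (A : Matrix (Fin 2) (Fin 2) (AlgebraicClosure K))
      (g : Fin 2 → MvPolynomial (Fin 2) (algebraicClosure k K))
      (c : AlgebraicClosure K), A.det ≠ 0 ∧ (∀ i, (g i).IsHomogeneous d) ∧ c ≠ 0 ∧
      ∀ v : Fin 2 → AlgebraicClosure K, ev (fL K f) (A.mulVec v) =
        c • A.mulVec (ev (fun i => (g i).map (algebraMap (algebraicClosure k K)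
          (AlgebraicClosure K))) v) := by
    rintro ⟨A, g, c, hA, hg, hc, hconj⟩
    apply hiso
    refine ⟨A, fun i => (g i).map (algebraMap (algebraicClosure k K) (AlgebraicClosure K)), hA,
      fun i => (hg i).map _, ?_, ?_⟩
    · intro i m
      rw [MvPolynomial.coeff_map]
      have h1 : IsAlgebraic k (((g i).coeff m : algebraicClosure k K) : K) :=
        mem_algebraicClosure_iff.1 ((g i).coeff m).2
      have h2 : algebraMap (algebraicClosure k K) (AlgebraicClosure K) ((g i).coeff m) =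
          algebraMap K (AlgebraicClosure K) (((g i).coeff m : algebraicClosure k K) : K) := rfl
      rw [h2]
      exact h1.algebraMap
    · intro x _
      refine ⟨c, hc, ?_⟩
      have h1 := hconj x
      have h2 : (fun i => MvPolynomial.aeval (A.mulVec x) (f i)) = ev (fL K f) (A.mulVec x) := by
        funext i
        simp only [ev, fL]
        rw [MvPolynomial.eval_map, MvPolynomial.aeval_def]
      rw [h2, h1]
      rfl
  have hXX : ∀ x ∈ X, ∀ y ∈ X, x ≠ y → wd x y ≠ 0 := by
    intro x hx y hy hxy h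
    obtain ⟨a, ha⟩ := B1_parallel (hX y hy).1 h
    exact hxy (hXc x hx y hy a ha)
  constructor
  · intro x y z t hx hy hz' ht hxy hzt hxt hzy
    have h1 := H1 (algebraicClosure k K) K Q f hf h0 hiso' X hX hXX (by omega) x y z t hx hy hz' ht
      hxy hzt hxt hzy
    have h2 := hht _ _ h1
    have h3 : (384 * (d : ℤ) * (d + 1)) * Q.lossT ≤ (384 * (d : ℤ) * (d + 1)) *
        (2 * δ.natDegree) := mul_le_mul_of_nonneg_left hQ (by positivity)
    have h4 := h2.trans h3
    have h5 : (384 * (d : ℤ) * (d + 1)) * (2 * δ.natDegree) =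
        ((768 * d * (d + 1) * δ.natDegree : ℕ) : ℤ) := by
      push_cast
      ring
    rw [h5] at h4
    exact_mod_cast h4
  · obtain ⟨a, b', g, c, hab, hc, hg, hgev, hgco, hpt⟩ := H2 (algebraicClosure k K) K Q f hf h0
      hiso' X hX hXX (by omega)
    have hCle : ∀ (e : K), HB Q e (C * Q.lossT) →
        height k e ≤ (N₁ + N₂ + 2 * C) * δ.natDegree := by
      intro e he
      have h1 := hht _ _ he
      have h2 : (C : ℤ) * Q.lossT ≤ C * (2 * δ.natDegree) :=
        mul_le_mul_of_nonneg_left hQ (Int.natCast_nonneg C)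
      have h3 := h1.trans h2
      have h4 : (C : ℤ) * (2 * δ.natDegree) = ((2 * C * δ.natDegree : ℕ) : ℤ) := by
        push_cast
        ring
      rw [h4] at h3
      have h5 : height k e ≤ 2 * C * δ.natDegree := by exact_mod_cast h3
      refine h5.trans (Nat.mul_le_mul_right _ ?_)
      omega
    set A : Matrix (Fin 2) (Fin 2) K := Matrix.of fun i j => if j = 0 then a i else b' i with hA
    have hemb : ∀ z : Fin 2 → K, A.mulVec z = emb a b' z := by
      intro z
      funext i
      simp only [hA, emb, Matrix.mulVec, dotProduct, Fin.sum_univ_two, Matrix.of_apply, if_true,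
        one_ne_zero, if_false, Pi.add_apply, Pi.smul_apply, smul_eq_mul]
      ring
    refine ⟨A, g, c⁻¹, ?_, inv_ne_zero hc, hg, ?_, ?_, ?_⟩
    · rw [Matrix.det_fin_two]
      simp only [hA, Matrix.of_apply, if_true, one_ne_zero, if_false]
      intro h
      apply hab
      simp only [wd]
      linear_combination h
    · intro x
      rw [hemb, hemb, hgev, D2.emb_smul, D2.emb_coo hab, smul_smul, inv_mul_cancel₀ hc, one_smul]
    · intro i m
      exact hCle _ (hgco i m)
    · intro x hx hpx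
      have h1 := hpt (emb a b' x) (D2.emb_ne hab hx) (pre_conj hf hab hc hgev hpx)
      rw [D2.coo_emb hab] at h1
      exact hCle _ h1

end Pool.Agent.Q256.LH
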